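import Pool.Agent.Helper56.HD.LLLb

/-!
# Project HD (MP_950ff6_co): branch sets of size `b`
-/

set_option autoImplicit false
set_option linter.unusedSectionVars false

namespace Pool.Agent.Helper56.HD.Multi

open Finset Pool.Agent.Helper56.HD

variable {V : Type} [Fintype V] [DecidableEq V] {b m : ℕ}

/-- The number of common neighbours of the vertices of a tuple. -/
def cod (H : SimpleGraph V) [DecidableRel H.Adj] (v : Fin b → Fin m → V) (u : Fin b → Fin m) : ℕ :=
  (univ.filter fun w => ∀ c, H.Adj (v c (u c)) w).card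

/-- tuples with a prescribed coordinate -/
def Uc (c : Fin b) (j : Fin m) : Finset (Fin b → Fin m) := univ.filter fun u => u c = j

theorem card_Uc (c : Fin b) (j : Fin m) : (Uc c j).card ≤ m ^ (b - 1) := by
  classical
  have hm : 0 < m := j.pos
  have hb : 1 ≤ b := c.pos
  have h1 : (Uc c j).card * m ≤ m ^ b := by
    have : ((Uc c j) ×ˢ (univ : Finset (Fin m))).card ≤ (univ : Finset (Fin b → Fin m)).card := by
      apply card_le_card_of_injOn (fun x => Function.update x.1 c x.2)
      · intro x _
        exact mem_coe.2 (mem_univ _)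
      · intro x hx y hy hxy
        have hx1 : x.1 c = j := (mem_filter.1 (mem_product.1 (mem_coe.1 hx)).1).2
        have hy1 : y.1 c = j := (mem_filter.1 (mem_product.1 (mem_coe.1 hy)).1).2
        have e1 : x.2 = y.2 := by
          have := congrFun hxy c
          simpa using this
        have e2 : x.1 = y.1 := by
          funext a
          by_cases ha : a = c
          · rw [ha, hx1, hy1]
          · have := congrFun hxy a
            simpa [Function.update_of_ne ha] using this
        exact Prod.ext e2 e1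
    rw [card_product, card_univ, card_univ, Fintype.card_fin, Fintype.card_fun, Fintype.card_fin,
      Fintype.card_fin] at this
    exact this
  have h2 : m ^ b = m ^ (b - 1) * m := by
    rw [← pow_succ]
    congr 1
    omega
  rw [h2] at h1
  exact Nat.le_of_mul_le_mul_right h1 hm

theorem fiber (U : Finset (Fin b → Fin m)) (a : Fin b)
    (hU : ∀ u ∈ U, ∀ x, Function.update u a x ∈ U) (R : (Fin b → Fin m) → Prop)
    [DecidablePred R] (D : ℕ)
    (h : ∀ u ∈ U, (univ.filter fun x => R (Function.update u a x)).card ≤ D) :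
    (U.filter R).card * m ≤ U.card * D := by
  classical
  calc (U.filter R).card * m = ((U.filter R) ×ˢ (univ : Finset (Fin m))).card := by
        rw [card_product, card_univ, Fintype.card_fin]
    _ ≤ (U.sigma fun u => univ.filter fun x => R (Function.update u a x)).card := by
        apply card_le_card_of_injOn
          (fun x => (⟨Function.update x.1 a x.2, x.1 a⟩ : (_ : Fin b → Fin m) × Fin m))
        · intro x hx
          have h1 := mem_filter.1 (mem_product.1 (mem_coe.1 hx)).1
          refine mem_coe.2 (mem_sigma.2 ⟨hU _ h1.1 _, mem_filter.2 ⟨mem_univ _, ?_⟩⟩)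
          show R (Function.update (Function.update x.1 a x.2) a (x.1 a))
          rw [Function.update_idem, Function.update_eq_self]
          exact h1.2
        · intro x _ y _ hxy
          have h1 : Function.update x.1 a x.2 = Function.update y.1 a y.2 :=
            congrArg Sigma.fst hxy
          have h2 : x.1 a = y.1 a := eq_of_heq (Sigma.mk.inj hxy).2
          have h3 : x.2 = y.2 := by
            have := congrFun h1 a
            simpa using this
          have h4 : x.1 = y.1 := by
            funext c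
            by_cases hc : c = a
            · rw [hc]
              exact h2
            · have := congrFun h1 c
              simpa [Function.update_of_ne hc] using this
          exact Prod.ext h4 h3
    _ = ∑ u ∈ U, (univ.filter fun x => R (Function.update u a x)).card := card_sigma _ _
    _ ≤ ∑ _u ∈ U, D := sum_le_sum h
    _ = U.card * D := by rw [sum_const, smul_eq_mul]

section Count

variable (H : SimpleGraph V) [DecidableRel H.Adj] (D : ℕ) (v : Fin b → Fin m → V)
  (hv : ∀ c, Function.Injective (v c)) (hD : ∀ v, (univ.filter fun w => H.Adj v w).card ≤ D)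

include hv hD

theorem nbr_le (c : Fin b) (w : V) : (univ.filter fun x => H.Adj (v c x) w).card ≤ D := by
  refine le_trans ?_ (hD w)
  apply card_le_card_of_injOn (v c)
  · intro x hx
    exact mem_coe.2 (mem_filter.2 ⟨mem_univ _, (mem_filter.1 (mem_coe.1 hx)).2.symm⟩)
  · intro x _ y _ h
    exact hv c h

theorem adj_count (c : Fin b) (j : Fin m) (a a' : Fin b) :
    ((Uc c j).filter fun u => H.Adj (v a (u a)) (v a' (u a'))).card * m ≤ m ^ (b - 1) * D := by
  by_cases haa : a = a'
  · subst haa
    have : ((Uc c j).filter fun u => H.Adj (v a (u a)) (v a (u a))) = ∅ := by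
      rw [filter_eq_empty_iff]
      intro u _ h
      exact h.ne rfl
    rw [this]
    simp
  · have main : ∀ a0 : Fin b, a0 ≠ c →
        (∀ u ∈ Uc c j, (univ.filter fun x => H.Adj (v a (Function.update u a0 x a))
          (v a' (Function.update u a0 x a'))).card ≤ D) →
        ((Uc c j).filter fun u => H.Adj (v a (u a)) (v a' (u a'))).card * m ≤
          m ^ (b - 1) * D := by
      intro a0 ha0 h
      refine (fiber (Uc c j) a0 ?_ (fun u => H.Adj (v a (u a)) (v a' (u a'))) D h).trans
        (Nat.mul_le_mul_right _ (card_Uc c j))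
      intro u hu x
      refine mem_filter.2 ⟨mem_univ _, ?_⟩
      rw [Function.update_of_ne ha0.symm]
      exact (mem_filter.1 hu).2
    by_cases hac : a = c
    · have ha'c : a' ≠ c := fun h => haa (hac.trans h.symm)
      apply main a' ha'c
      intro u _
      have h1 := nbr_le H D v hv hD a' (v a (u a))
      refine le_trans (le_of_eq ?_) h1
      congr 1
      ext x
      simp only [mem_filter, mem_univ, true_and]
      rw [Function.update_of_ne haa, Function.update_self]
      exact H.adj_comm _ _
    · apply main a hac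
      intro u _
      have h1 := nbr_le H D v hv hD a (v a' (u a'))
      refine le_trans (le_of_eq ?_) h1
      congr 1
      ext x
      simp only [mem_filter, mem_univ, true_and]
      rw [Function.update_of_ne (Ne.symm haa), Function.update_self]

theorem sum_cod (c : Fin b) (j : Fin m) : ∑ u ∈ Uc c j, cod H v u ≤ D ^ b := by
  classical
  have hb : 1 ≤ b := c.pos
  have h1 : ∑ u ∈ Uc c j, cod H v u =
      ∑ w : V, ((Uc c j).filter fun u => ∀ a, H.Adj (v a (u a)) w).card := by
    have h2 : ∀ u, cod H v u = ∑ w : V, if (∀ a, H.Adj (v a (u a)) w) then 1 else 0 := by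
      intro u
      rw [← sum_filter, sum_const, smul_eq_mul, mul_one]
      rfl
    simp_rw [h2]
    rw [sum_comm]
    refine sum_congr rfl fun w _ => ?_
    rw [← sum_filter, sum_const, smul_eq_mul, mul_one]
  rw [h1]
  have h3 : ∀ w : V, ((Uc c j).filter fun u => ∀ a, H.Adj (v a (u a)) w).card ≤
      if H.Adj (v c j) w then D ^ (b - 1) else 0 := by
    intro w
    split_ifs with hw
    · have h4 : ((Uc c j).filter fun u => ∀ a, H.Adj (v a (u a)) w) ⊆
          Fintype.piFinset fun a => if a = c then {j} else
            univ.filter fun x => H.Adj (v a x) w := by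
        intro u hu
        have hu1 := mem_filter.1 hu
        rw [Fintype.mem_piFinset]
        intro a
        by_cases ha : a = c
        · rw [if_pos ha, mem_singleton, ha]
          exact (mem_filter.1 hu1.1).2
        · rw [if_neg ha, mem_filter]
          exact ⟨mem_univ _, hu1.2 a⟩
      refine (card_le_card h4).trans ?_
      rw [Fintype.card_piFinset]
      calc ∏ a, (if a = c then ({j} : Finset (Fin m)) else
            univ.filter fun x => H.Adj (v a x) w).card
          ≤ ∏ a : Fin b, (if a = c then 1 else D) := by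
            apply prod_le_prod'
            intro a _
            split_ifs
            · rw [card_singleton]
            · exact nbr_le H D v hv hD a w
        _ = D ^ (b - 1) := by
            rw [prod_ite, prod_const, prod_const, one_pow, one_mul]
            congr 1
            rw [filter_ne' univ c, card_erase_of_mem (mem_univ _), card_univ, Fintype.card_fin]
    · rw [Nat.le_zero, card_eq_zero, filter_eq_empty_iff]
      intro u hu h
      apply hw
      have := h c
      rwa [(mem_filter.1 hu).2] at this
  calc ∑ w : V, ((Uc c j).filter fun u => ∀ a, H.Adj (v a (u a)) w).card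
      ≤ ∑ w : V, if H.Adj (v c j) w then D ^ (b - 1) else 0 := sum_le_sum fun w _ => h3 w
    _ = (univ.filter fun w => H.Adj (v c j) w).card * D ^ (b - 1) := by
        rw [← sum_filter, sum_const, smul_eq_mul]
    _ ≤ D * D ^ (b - 1) := Nat.mul_le_mul_right _ (hD _)
    _ = D ^ b := by
        rw [← pow_succ']
        congr 1
        omega

end Count

/-- forbidden tuples -/
def Bd (H : SimpleGraph V) (D K : ℕ) (v : Fin b → Fin m → V) [DecidableRel H.Adj]
    (u : Fin b → Fin m) : Prop :=
  (∃ a a', H.Adj (v a (u a)) (v a' (u a'))) ∨ K * D ^ b < cod H v u * m ^ (b - 1)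

instance (H : SimpleGraph V) (D K : ℕ) (v : Fin b → Fin m → V) [DecidableRel H.Adj] :
    DecidablePred (Bd H D K v) := fun u => by unfold Bd; infer_instance

theorem bad_count (H : SimpleGraph V) [DecidableRel H.Adj] (D K : ℕ) (v : Fin b → Fin m → V)
    (hv : ∀ c, Function.Injective (v c)) (hD : ∀ v, (univ.filter fun w => H.Adj v w).card ≤ D)
    (hK : K * b ^ 2 * D ≤ m) (c : Fin b) (j : Fin m) :
    ((Uc c j).filter fun u => Bd H D K v u).card * K ≤ 2 * m ^ (b - 1) := by
  classical
  have hm : 0 < m := j.pos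
  have hb : 1 ≤ b := c.pos
  have h1 : ((Uc c j).filter fun u => Bd H D K v u).card ≤
      ((Uc c j).filter fun u => ∃ a a', H.Adj (v a (u a)) (v a' (u a'))).card +
      ((Uc c j).filter fun u => K * D ^ b < cod H v u * m ^ (b - 1)).card := by
    refine (card_le_card (t := ((Uc c j).filter fun u => ∃ a a', H.Adj (v a (u a)) (v a' (u a'))) ∪
      ((Uc c j).filter fun u => K * D ^ b < cod H v u * m ^ (b - 1))) ?_).trans (card_union_le _ _)
    intro u hu
    have hu1 := mem_filter.1 hu
    rcases hu1.2 with h | h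
    · exact mem_union_left _ (mem_filter.2 ⟨hu1.1, h⟩)
    · exact mem_union_right _ (mem_filter.2 ⟨hu1.1, h⟩)
  have h2 : ((Uc c j).filter fun u => ∃ a a', H.Adj (v a (u a)) (v a' (u a'))).card * K ≤
      m ^ (b - 1) := by
    have h3 : ((Uc c j).filter fun u => ∃ a a', H.Adj (v a (u a)) (v a' (u a'))).card * m ≤
        b ^ 2 * (m ^ (b - 1) * D) := by
      have h4 : ((Uc c j).filter fun u => ∃ a a', H.Adj (v a (u a)) (v a' (u a'))) ⊆
          (univ : Finset (Fin b × Fin b)).biUnion fun p =>
            (Uc c j).filter fun u => H.Adj (v p.1 (u p.1)) (v p.2 (u p.2)) := by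
        intro u hu
        obtain ⟨hu1, a, a', ha⟩ := mem_filter.1 hu
        rw [mem_biUnion]
        exact ⟨(a, a'), mem_univ _, mem_filter.2 ⟨hu1, ha⟩⟩
      calc ((Uc c j).filter fun u => ∃ a a', H.Adj (v a (u a)) (v a' (u a'))).card * m
          ≤ (∑ p : Fin b × Fin b,
            ((Uc c j).filter fun u => H.Adj (v p.1 (u p.1)) (v p.2 (u p.2))).card) * m :=
            Nat.mul_le_mul_right _ ((card_le_card h4).trans card_biUnion_le)
        _ = ∑ p : Fin b × Fin b,
            ((Uc c j).filter fun u => H.Adj (v p.1 (u p.1)) (v p.2 (u p.2))).card * m := by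
            rw [sum_mul]
        _ ≤ ∑ _p : Fin b × Fin b, m ^ (b - 1) * D :=
            sum_le_sum fun p _ => adj_count H D v hv hD c j p.1 p.2
        _ = b ^ 2 * (m ^ (b - 1) * D) := by
            rw [sum_const, card_univ, Fintype.card_prod, Fintype.card_fin, smul_eq_mul, sq]
    have h5 : m * (((Uc c j).filter fun u => ∃ a a', H.Adj (v a (u a)) (v a' (u a'))).card * K) ≤
        m * m ^ (b - 1) := by
      calc m * (((Uc c j).filter fun u => ∃ a a', H.Adj (v a (u a)) (v a' (u a'))).card * K)
          = (((Uc c j).filter fun u => ∃ a a', H.Adj (v a (u a)) (v a' (u a'))).card * m) * K := by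
            ring
        _ ≤ (b ^ 2 * (m ^ (b - 1) * D)) * K := Nat.mul_le_mul_right _ h3
        _ = (K * b ^ 2 * D) * m ^ (b - 1) := by ring
        _ ≤ m * m ^ (b - 1) := Nat.mul_le_mul_right _ hK
    exact Nat.le_of_mul_le_mul_left h5 hm
  have h6 : ((Uc c j).filter fun u => K * D ^ b < cod H v u * m ^ (b - 1)).card * K ≤
      m ^ (b - 1) := by
    rcases Nat.eq_zero_or_pos D with hD0 | hD0
    · have : ((Uc c j).filter fun u => K * D ^ b < cod H v u * m ^ (b - 1)) = ∅ := by
        rw [filter_eq_empty_iff]
        intro u _ h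
        have h7 : cod H v u ≤ (univ.filter fun w => H.Adj (v c (u c)) w).card := by
          apply card_le_card
          intro w hw
          exact mem_filter.2 ⟨mem_univ _, (mem_filter.1 hw).2 c⟩
        have h8 := hD (v c (u c))
        have h9 : cod H v u = 0 := by omega
        rw [h9, zero_mul] at h
        exact absurd h (Nat.not_lt_zero _)
      rw [this]
      simp
    · have hDb : 0 < D ^ b := Nat.pow_pos hD0
      have h7 : ((Uc c j).filter fun u => K * D ^ b < cod H v u * m ^ (b - 1)).card *
          (K * D ^ b) ≤ D ^ b * m ^ (b - 1) := by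
        calc ((Uc c j).filter fun u => K * D ^ b < cod H v u * m ^ (b - 1)).card * (K * D ^ b)
            = ∑ _u ∈ (Uc c j).filter (fun u => K * D ^ b < cod H v u * m ^ (b - 1)),
              (K * D ^ b) := by rw [sum_const, smul_eq_mul]
          _ ≤ ∑ u ∈ (Uc c j).filter (fun u => K * D ^ b < cod H v u * m ^ (b - 1)),
              cod H v u * m ^ (b - 1) := sum_le_sum fun u hu => (mem_filter.1 hu).2.le
          _ ≤ ∑ u ∈ Uc c j, cod H v u * m ^ (b - 1) :=
              sum_le_sum_of_subset_of_nonneg (filter_subset _ _) fun _ _ _ => Nat.zero_le _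
          _ = (∑ u ∈ Uc c j, cod H v u) * m ^ (b - 1) := by rw [sum_mul]
          _ ≤ D ^ b * m ^ (b - 1) := Nat.mul_le_mul_right _ (sum_cod H D v hv hD c j)
      have h8 : D ^ b * (((Uc c j).filter fun u => K * D ^ b < cod H v u * m ^ (b - 1)).card *
          K) ≤ D ^ b * m ^ (b - 1) := by
        calc _ = ((Uc c j).filter fun u => K * D ^ b < cod H v u * m ^ (b - 1)).card *
              (K * D ^ b) := by ring
          _ ≤ _ := h7
      exact Nat.le_of_mul_le_mul_left h8 hDb
  calc ((Uc c j).filter fun u => Bd H D K v u).card * K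
      ≤ (((Uc c j).filter fun u => ∃ a a', H.Adj (v a (u a)) (v a' (u a'))).card +
        ((Uc c j).filter fun u => K * D ^ b < cod H v u * m ^ (b - 1)).card) * K :=
        Nat.mul_le_mul_right _ h1
    _ = ((Uc c j).filter fun u => ∃ a a', H.Adj (v a (u a)) (v a' (u a'))).card * K +
        ((Uc c j).filter fun u => K * D ^ b < cod H v u * m ^ (b - 1)).card * K := by ring
    _ ≤ m ^ (b - 1) + m ^ (b - 1) := add_le_add h2 h6
    _ = 2 * m ^ (b - 1) := by ring

/-- Counting pairs in a symmetric set with bounded fibres. -/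
theorem pair_count {α : Type} [Fintype α] [DecidableEq α] (Q : Finset (α × α)) (F N : ℕ)
    (hs : ∀ x ∈ Q, (x.2, x.1) ∈ Q) (hf : ∀ a : α, (Q.filter fun x => x.1 = a).card ≤ F)
    (R : α → Prop) [DecidablePred R] (hR : (univ.filter R).card ≤ N) :
    (Q.filter fun x => R x.1 ∨ R x.2).card ≤ 2 * (N * F) := by
  have h1 : (Q.filter fun x => R x.1).card ≤ N * F := by
    have h2 : (Q.filter fun x => R x.1) ⊆
        (univ.filter R).biUnion fun a => Q.filter fun x => x.1 = a := by
      intro x hx
      rw [mem_filter] at hx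
      rw [mem_biUnion]
      exact ⟨x.1, mem_filter.2 ⟨mem_univ _, hx.2⟩, mem_filter.2 ⟨hx.1, rfl⟩⟩
    calc (Q.filter fun x => R x.1).card
        ≤ ∑ a ∈ univ.filter R, (Q.filter fun x => x.1 = a).card :=
          (card_le_card h2).trans card_biUnion_le
      _ ≤ ∑ _a ∈ univ.filter R, F := sum_le_sum fun a _ => hf a
      _ = (univ.filter R).card * F := by rw [sum_const, smul_eq_mul]
      _ ≤ N * F := Nat.mul_le_mul_right _ hR
  have h5 : (Q.filter fun x => R x.2).card ≤ (Q.filter fun x => R x.1).card := by
    apply card_le_card_of_injOn (fun x => (x.2, x.1))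
    · intro x hx
      rw [mem_coe, mem_filter] at hx ⊢
      exact ⟨hs x hx.1, hx.2⟩
    · intro x _ y _ hxy
      simp only [Prod.mk.injEq] at hxy
      exact Prod.ext hxy.2 hxy.1
  have h6 : (Q.filter fun x => R x.1 ∨ R x.2).card ≤
      (Q.filter fun x => R x.1).card + (Q.filter fun x => R x.2).card := by
    rw [filter_or]
    exact card_union_le _ _
  omega

/-- The set of pairs of allowed bags completely joined in `H`. -/
def QQ (H : SimpleGraph V) (D K : ℕ) (v : Fin b → Fin m → V) [DecidableRel H.Adj] :
    Finset (Tup b m × Tup b m) :=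
  univ.filter fun x => x.1.1 ≠ x.2.1 ∧ (∀ c, x.1.2 c ≠ x.2.2 c) ∧ ¬ Bd H D K v x.1.2 ∧
    ¬ Bd H D K v x.2.2 ∧ ∀ a a', H.Adj (v a (x.1.2 a)) (v a' (x.2.2 a'))

theorem QQ_symm (H : SimpleGraph V) (D K : ℕ) (v : Fin b → Fin m → V) [DecidableRel H.Adj] :
    ∀ x ∈ QQ H D K v, (x.2, x.1) ∈ QQ H D K v := by
  intro x hx
  obtain ⟨_, h1, h2, h3, h4, h5⟩ := mem_filter.1 hx
  exact mem_filter.2 ⟨mem_univ _, h1.symm, fun c => (h2 c).symm, h4, h3,
    fun a a' => (h5 a' a).symm⟩

theorem QQ_fiber (H : SimpleGraph V) [DecidableRel H.Adj] (D K C : ℕ) (v : Fin b → Fin m → V)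
    (hv : ∀ c, Function.Injective (v c)) (hb : 1 ≤ b)
    (hC : C * D ^ (b ^ 2) ≤ m ^ (b ^ 2 - 1)) (x : Tup b m) :
    ((QQ H D K v).filter fun y => y.1 = x).card * C ≤ K ^ b * m ^ b := by
  classical
  have hm : 0 < m := x.1.pos
  by_cases hB : Bd H D K v x.2
  · have : ((QQ H D K v).filter fun y => y.1 = x) = ∅ := by
      rw [filter_eq_empty_iff]
      intro y hy hyx
      rw [← hyx] at hB
      exact (mem_filter.1 hy).2.2.2.1 hB
    rw [this]
    simp
  · have h1 : cod H v x.2 * m ^ (b - 1) ≤ K * D ^ b := by
      by_contra hcon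
      exact hB (Or.inr (not_le.1 hcon))
    have h2 : ((QQ H D K v).filter fun y => y.1 = x).card ≤ m * cod H v x.2 ^ b := by
      have h3 : ((QQ H D K v).filter fun y => y.1 = x).card ≤
          ((univ : Finset (Fin m)) ×ˢ Fintype.piFinset fun c : Fin b =>
            univ.filter fun z => ∀ a, H.Adj (v a (x.2 a)) (v c z)).card := by
        apply card_le_card_of_injOn (fun y => y.2)
        · intro y hy
          obtain ⟨hy1, hy2⟩ := mem_filter.1 (mem_coe.1 hy)
          have hy3 := (mem_filter.1 hy1).2
          refine mem_coe.2 (mem_product.2 ⟨mem_univ _, Fintype.mem_piFinset.2 fun c => ?_⟩)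
          refine mem_filter.2 ⟨mem_univ _, fun a => ?_⟩
          have := hy3.2.2.2.2 a c
          rwa [hy2] at this
        · intro y hy z hz hyz
          have hy2 := (mem_filter.1 (mem_coe.1 hy)).2
          have hz2 := (mem_filter.1 (mem_coe.1 hz)).2
          exact Prod.ext (hy2.trans hz2.symm) hyz
      refine h3.trans ?_
      rw [card_product, card_univ, Fintype.card_fin, Fintype.card_piFinset]
      apply Nat.mul_le_mul_left
      calc ∏ c : Fin b, (univ.filter fun z => ∀ a, H.Adj (v a (x.2 a)) (v c z)).card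
          ≤ ∏ _c : Fin b, cod H v x.2 := by
            apply prod_le_prod'
            intro c _
            apply card_le_card_of_injOn (v c)
            · intro z hz
              exact mem_coe.2 (mem_filter.2 ⟨mem_univ _, (mem_filter.1 (mem_coe.1 hz)).2⟩)
            · intro z _ z' _ h
              exact hv c h
        _ = cod H v x.2 ^ b := by rw [prod_const, card_univ, Fintype.card_fin]
    have e1 : m ^ (b ^ 2 - 1) = (m ^ (b - 1)) ^ b * m ^ (b - 1) := by
      rw [← pow_mul, ← pow_add]
      congr 1
      obtain ⟨c, rfl⟩ : ∃ c, b = c + 1 := ⟨b - 1, by omega⟩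
      have : (c + 1) ^ 2 = c * (c + 1) + c + 1 := by ring
      simp only [Nat.add_sub_cancel]
      omega
    have h4 : cod H v x.2 ^ b * C ≤ K ^ b * m ^ (b - 1) := by
      have h5 : (m ^ (b - 1)) ^ b * (cod H v x.2 ^ b * C) ≤
          (m ^ (b - 1)) ^ b * (K ^ b * m ^ (b - 1)) := by
        calc (m ^ (b - 1)) ^ b * (cod H v x.2 ^ b * C)
            = (cod H v x.2 * m ^ (b - 1)) ^ b * C := by rw [mul_pow]; ring
          _ ≤ (K * D ^ b) ^ b * C := Nat.mul_le_mul_right _ (Nat.pow_le_pow_left h1 b)
          _ = K ^ b * (C * D ^ (b ^ 2)) := by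
              rw [mul_pow, ← pow_mul, sq]
              ring
          _ ≤ K ^ b * m ^ (b ^ 2 - 1) := Nat.mul_le_mul_left _ hC
          _ = (m ^ (b - 1)) ^ b * (K ^ b * m ^ (b - 1)) := by rw [e1]; ring
      exact Nat.le_of_mul_le_mul_left h5 (Nat.pow_pos (Nat.pow_pos hm))
    have e2 : m ^ b = m * m ^ (b - 1) := by
      rw [← pow_succ']
      congr 1
      omega
    calc ((QQ H D K v).filter fun y => y.1 = x).card * C
        ≤ (m * cod H v x.2 ^ b) * C := Nat.mul_le_mul_right _ h2
      _ = m * (cod H v x.2 ^ b * C) := by ring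
      _ ≤ m * (K ^ b * m ^ (b - 1)) := Nat.mul_le_mul_left _ h4
      _ = K ^ b * m ^ b := by rw [e2]; ring

/-- `b` sets of `m` vertices can be arranged into `m` bags which are cliques of the complement of `H`,
no two of them completely joined in `H`. -/
theorem bag_lemma (H : SimpleGraph V) [DecidableRel H.Adj] (D K C : ℕ) (v : Fin b → Fin m → V)
    (hv : ∀ c, Function.Injective (v c)) (hb : 1 ≤ b)
    (hD : ∀ v, (univ.filter fun w => H.Adj v w).card ≤ D)
    (hKb : K = 48 * b) (hC1 : 2 * K * (2 * K) ^ b ≤ C) (hK : K * b ^ 2 * D ≤ m)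
    (hC : C * D ^ (b ^ 2) ≤ m ^ (b ^ 2 - 1)) :
    ∃ π : Om b m, (∀ i a a', ¬ H.Adj (v a (π a i)) (v a' (π a' i))) ∧
      ∀ i i', i ≠ i' → ∃ a a', ¬ H.Adj (v a (π a i)) (v a' (π a' i')) := by
  classical
  have hb0 : (0 : ℝ) < b := by exact_mod_cast hb
  have hKpos : 0 < K := by omega
  have hKR : (0 : ℝ) < K := by exact_mod_cast hKpos
  have hCpos : 0 < C := lt_of_lt_of_le (by positivity) hC1
  have hCR : (0 : ℝ) < C := by exact_mod_cast hCpos
  set J1 : Finset (Ev b m) := (univ.filter fun x : Tup b m => Bd H D K v x.2).map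
    ⟨Sum.inl, Sum.inl_injective⟩ with hJ1
  set J2 : Finset (Ev b m) := (QQ H D K v).map ⟨Sum.inr, Sum.inr_injective⟩ with hJ2
  -- the general bound of the weights
  have bound : ∀ (N1 N2 : ℕ), N1 * K ≤ 2 * m ^ b → N2 * C ≤ 2 * (m ^ b * (K ^ b * m ^ b)) →
      (2 ≤ m ∨ N2 = 0) → 1 ≤ m →
      (N1 : ℝ) * (1 / (m : ℝ) ^ b) + (N2 : ℝ) * (1 / ((m : ℝ) * (m - 1)) ^ b) ≤
        1 / (16 * b) := by
    intro N1 N2 h1 h2 h3 hm1
    have hmR : (1 : ℝ) ≤ m := by exact_mod_cast hm1
    have hm0 : (0 : ℝ) < m := by linarith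
    have hmb : (0 : ℝ) < (m : ℝ) ^ b := by positivity
    have e0 : (3 : ℝ) / K = 1 / (16 * b) := by
      rw [hKb]
      push_cast
      field_simp
      norm_num
    have e1 : (N1 : ℝ) * (1 / (m : ℝ) ^ b) ≤ 2 / K := by
      rw [mul_one_div, div_le_div_iff₀ hmb hKR]
      exact_mod_cast h1
    have e2 : (N2 : ℝ) * (1 / ((m : ℝ) * (m - 1)) ^ b) ≤ 1 / K := by
      rcases h3 with h3 | h3
      · have hm2 : (2 : ℝ) ≤ m := by exact_mod_cast h3
        have hm' : (0 : ℝ) < (m : ℝ) - 1 := by linarith
        have h4 : (N2 : ℝ) * C ≤ 2 * ((m : ℝ) ^ b * ((K : ℝ) ^ b * (m : ℝ) ^ b)) := by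
          exact_mod_cast h2
        have h5 : (2 : ℝ) * K * (2 * K) ^ b ≤ C := by exact_mod_cast hC1
        have h6 : (m : ℝ) ^ b ≤ (2 : ℝ) ^ b * ((m : ℝ) - 1) ^ b := by
          rw [← mul_pow]
          apply pow_le_pow_left₀ hm0.le
          linarith
        have hmb' : (0 : ℝ) < ((m : ℝ) - 1) ^ b := by positivity
        rw [mul_one_div, mul_pow, div_le_div_iff₀ (by positivity) hKR]
        have h7 : ((N2 : ℝ) * K) * C ≤ (1 * ((m : ℝ) ^ b * ((m : ℝ) - 1) ^ b)) * C := by
          calc ((N2 : ℝ) * K) * C = (N2 : ℝ) * C * K := by ring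
            _ ≤ 2 * ((m : ℝ) ^ b * ((K : ℝ) ^ b * (m : ℝ) ^ b)) * K :=
                mul_le_mul_of_nonneg_right h4 hKR.le
            _ = (2 * K * (K : ℝ) ^ b * (m : ℝ) ^ b) * (m : ℝ) ^ b := by ring
            _ ≤ (2 * K * (K : ℝ) ^ b * (m : ℝ) ^ b) * ((2 : ℝ) ^ b * ((m : ℝ) - 1) ^ b) :=
                mul_le_mul_of_nonneg_left h6 (by positivity)
            _ = (2 * K * (2 * K) ^ b) * ((m : ℝ) ^ b * ((m : ℝ) - 1) ^ b) := by
                rw [mul_pow (2 : ℝ) (K : ℝ) b]; ring
            _ ≤ C * ((m : ℝ) ^ b * ((m : ℝ) - 1) ^ b) :=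
                mul_le_mul_of_nonneg_right h5 (by positivity)
            _ = (1 * ((m : ℝ) ^ b * ((m : ℝ) - 1) ^ b)) * C := by ring
        exact le_of_mul_le_mul_right h7 hCR
      · rw [h3]
        simp only [Nat.cast_zero, zero_mul]
        positivity
    have e3 : (2 : ℝ) / K + 1 / K = 3 / K := by ring
    linarith
  have split : ∀ (P : Ev b m → Prop) [DecidablePred P] (N1 N2 : ℕ),
      ((univ.filter fun x : Tup b m => Bd H D K v x.2).filter fun x => P (.inl x)).card ≤ N1 →
      ((QQ H D K v).filter fun x => P (.inr x)).card ≤ N2 → 0 < m →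
      ∑ f ∈ (J1 ∪ J2).filter P, wt f ≤
        (N1 : ℝ) * (1 / (m : ℝ) ^ b) + (N2 : ℝ) * (1 / ((m : ℝ) * (m - 1)) ^ b) := by
    intro P _ N1 N2 h1 h2 hm0
    have hmR : (1 : ℝ) ≤ m := by exact_mod_cast hm0
    have hdis : Disjoint (J1.filter P) (J2.filter P) := by
      rw [disjoint_left]
      intro f hf hf'
      rw [mem_filter, hJ1, mem_map] at hf
      rw [mem_filter, hJ2, mem_map] at hf'
      obtain ⟨⟨x, _, hx⟩, _⟩ := hf
      obtain ⟨⟨y, _, hy⟩, _⟩ := hf'
      rw [← hx] at hy
      exact absurd hy (by simp)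
    rw [filter_union, sum_union hdis, hJ1, hJ2, filter_map, filter_map, sum_map, sum_map]
    refine add_le_add ?_ ?_
    · calc _ = ((((univ.filter fun x : Tup b m => Bd H D K v x.2).filter
          fun x => P (.inl x)).card : ℕ) : ℝ) * (1 / (m : ℝ) ^ b) := by
            rw [← nsmul_eq_mul, ← sum_const]
            rfl
        _ ≤ (N1 : ℝ) * (1 / (m : ℝ) ^ b) := by
            apply mul_le_mul_of_nonneg_right _ (by positivity)
            exact_mod_cast h1
    · calc _ = ((((QQ H D K v).filter fun x => P (.inr x)).card : ℕ) : ℝ) *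
            (1 / ((m : ℝ) * (m - 1)) ^ b) := by
            rw [← nsmul_eq_mul, ← sum_const]
            rfl
        _ ≤ (N2 : ℝ) * (1 / ((m : ℝ) * (m - 1)) ^ b) := by
            apply mul_le_mul_of_nonneg_right
            · exact_mod_cast h2
            · have : (0 : ℝ) ≤ (m : ℝ) - 1 := by linarith
              positivity
  have hQ2 : ∀ (P : Tup b m × Tup b m → Prop) [DecidablePred P],
      2 ≤ m ∨ ((QQ H D K v).filter P).card = 0 := by
    intro P _
    rcases Nat.lt_or_ge m 2 with h | h
    · right
      rw [card_eq_zero, filter_eq_empty_iff]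
      intro x hx _
      apply (mem_filter.1 hx).2.1
      apply Fin.ext
      have h1 := x.1.1.isLt
      have h2 := x.2.1.isLt
      omega
    · exact Or.inl h
  -- the number of tuples with a given bag index or a given value
  have hone : ∀ c : Fin b, ∀ j : Fin m, ((Uc c j).filter fun u => Bd H D K v u).card * K ≤
      2 * m ^ (b - 1) := fun c j => bad_count H D K v hv hD hK c j
  have e2 : ∀ _ : Fin m, m ^ b = m * m ^ (b - 1) := by
    intro _
    rw [← pow_succ']
    congr 1
    omega
  have c0 : Fin b := ⟨0, hb⟩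
  have hpos1 : ∀ i : Fin m, (univ.filter fun x : Tup b m => x.1 = i).card ≤ m ^ b := by
    intro i
    have : (univ.filter fun x : Tup b m => x.1 = i).card ≤
        (univ : Finset (Fin b → Fin m)).card := by
      apply card_le_card_of_injOn Prod.snd
      · intro x _
        exact mem_coe.2 (mem_univ _)
      · intro x hx y hy hxy
        exact Prod.ext ((mem_filter.1 (mem_coe.1 hx)).2.trans
          (mem_filter.1 (mem_coe.1 hy)).2.symm) hxy
    rwa [card_univ, Fintype.card_fun, Fintype.card_fin, Fintype.card_fin] at this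
  have hval1 : ∀ (c : Fin b) (j : Fin m), (univ.filter fun x : Tup b m => x.2 c = j).card ≤
      m ^ b := by
    intro c j
    have : (univ.filter fun x : Tup b m => x.2 c = j).card ≤
        ((univ : Finset (Fin m)) ×ˢ Uc c j).card := by
      apply card_le_card
      intro x hx
      exact mem_product.2 ⟨mem_univ _, mem_filter.2 ⟨mem_univ _, (mem_filter.1 hx).2⟩⟩
    rw [card_product, card_univ, Fintype.card_fin] at this
    rw [e2 j]
    exact this.trans (Nat.mul_le_mul_left _ (card_Uc c j))
  have hQcount : ∀ (R : Tup b m → Prop) [DecidablePred R], (univ.filter R).card ≤ m ^ b →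
      ((QQ H D K v).filter fun x => R x.1 ∨ R x.2).card * C ≤
        2 * (m ^ b * (K ^ b * m ^ b)) := by
    intro R _ hR
    have h1 := pair_count (QQ H D K v) ((K ^ b * m ^ b) / C) (m ^ b) (QQ_symm H D K v)
      (fun a => (Nat.le_div_iff_mul_le hCpos).2 (QQ_fiber H D K C v hv hb hC a)) R hR
    calc ((QQ H D K v).filter fun x => R x.1 ∨ R x.2).card * C
        ≤ (2 * (m ^ b * ((K ^ b * m ^ b) / C))) * C := Nat.mul_le_mul_right _ h1
      _ = 2 * (m ^ b * ((K ^ b * m ^ b) / C * C)) := by ring
      _ ≤ 2 * (m ^ b * (K ^ b * m ^ b)) :=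
          Nat.mul_le_mul_left _ (Nat.mul_le_mul_left _ (Nat.div_mul_le_self _ _))
  have main : ∃ π : Om b m, ∀ f ∈ J1 ∪ J2, ¬ hap f π := by
    apply perm_lll hb
    · intro x hx
      rcases mem_union.1 hx with h | h
      · rw [hJ1, mem_map] at h
        obtain ⟨y, _, hy⟩ := h
        exact absurd hy (by simp)
      · rw [hJ2, mem_map] at h
        obtain ⟨y, hy, hyx⟩ := h
        have : y = x := by simpa using hyx
        rw [this] at hy
        have := (mem_filter.1 hy).2
        exact ⟨this.1, this.2.1⟩
    · intro i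
      refine (split (fun f => i ∈ pos f) _ _ le_rfl le_rfl i.pos).trans
        (bound _ _ ?_ ?_ (hQ2 _) i.pos)
      · have h1 : ((univ.filter fun x : Tup b m => Bd H D K v x.2).filter
            fun x => i ∈ pos (.inl x)).card ≤ ∑ j : Fin m,
            ((Uc c0 j).filter fun u => Bd H D K v u).card := by
          have h2 : ((univ.filter fun x : Tup b m => Bd H D K v x.2).filter
              fun x => i ∈ pos (.inl x)).card ≤
              ((univ : Finset (Fin m)).biUnion fun j =>
                (Uc c0 j).filter fun u => Bd H D K v u).card := by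
            apply card_le_card_of_injOn Prod.snd
            · intro x hx
              have h3 := mem_filter.1 (mem_coe.1 hx)
              refine mem_coe.2 (mem_biUnion.2 ⟨x.2 c0, mem_univ _, mem_filter.2
                ⟨mem_filter.2 ⟨mem_univ _, rfl⟩, (mem_filter.1 h3.1).2⟩⟩)
            · intro x hx y hy hxy
              have h3 := (mem_filter.1 (mem_coe.1 hx)).2
              have h4 := (mem_filter.1 (mem_coe.1 hy)).2
              simp only [pos, mem_singleton] at h3 h4
              exact Prod.ext (h3.symm.trans h4) hxy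
          exact h2.trans card_biUnion_le
        calc _ ≤ (∑ j : Fin m, ((Uc c0 j).filter fun u => Bd H D K v u).card) * K :=
              Nat.mul_le_mul_right _ h1
          _ = ∑ j : Fin m, ((Uc c0 j).filter fun u => Bd H D K v u).card * K := by rw [sum_mul]
          _ ≤ ∑ _j : Fin m, 2 * m ^ (b - 1) := sum_le_sum fun j _ => hone c0 j
          _ = 2 * m ^ b := by
              rw [sum_const, card_univ, Fintype.card_fin, smul_eq_mul, e2 i]
              ring
      · have h1 := hQcount (fun x => x.1 = i) (hpos1 i)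
        refine le_trans (Nat.mul_le_mul_right _ (card_le_card ?_)) h1
        intro x hx
        have h2 := mem_filter.1 hx
        refine mem_filter.2 ⟨h2.1, ?_⟩
        have h3 := h2.2
        simp only [pos, mem_insert, mem_singleton] at h3
        rcases h3 with h3 | h3
        · exact Or.inl h3.symm
        · exact Or.inr h3.symm
    · rintro ⟨c, j⟩
      have tv : ∀ x : Tup b m, (c, j) ∈ tval x → x.2 c = j := by
        intro x hx
        obtain ⟨a, _, ha⟩ := mem_image.1 hx
        simp only [Prod.mk.injEq] at ha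
        rw [← ha.1]
        exact ha.2
      refine (split (fun f => (c, j) ∈ val f) _ _ le_rfl le_rfl j.pos).trans
        (bound _ _ ?_ ?_ (hQ2 _) j.pos)
      · have h1 : ((univ.filter fun x : Tup b m => Bd H D K v x.2).filter
            fun x => (c, j) ∈ val (.inl x)).card ≤
            ((univ : Finset (Fin m)) ×ˢ ((Uc c j).filter fun u => Bd H D K v u)).card := by
          apply card_le_card
          intro x hx
          have h3 := mem_filter.1 hx
          exact mem_product.2 ⟨mem_univ _, mem_filter.2 ⟨mem_filter.2 ⟨mem_univ _, tv x h3.2⟩,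
            (mem_filter.1 h3.1).2⟩⟩
        rw [card_product, card_univ, Fintype.card_fin] at h1
        calc _ ≤ (m * ((Uc c j).filter fun u => Bd H D K v u).card) * K :=
              Nat.mul_le_mul_right _ h1
          _ = m * (((Uc c j).filter fun u => Bd H D K v u).card * K) := by ring
          _ ≤ m * (2 * m ^ (b - 1)) := Nat.mul_le_mul_left _ (hone c j)
          _ = 2 * m ^ b := by rw [e2 j]; ring
      · have h1 := hQcount (fun x => x.2 c = j) (hval1 c j)
        refine le_trans (Nat.mul_le_mul_right _ (card_le_card ?_)) h1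
        intro x hx
        have h2 := mem_filter.1 hx
        refine mem_filter.2 ⟨h2.1, ?_⟩
        rcases mem_union.1 h2.2 with h3 | h3
        · exact Or.inl (tv _ h3)
        · exact Or.inr (tv _ h3)
  obtain ⟨π, hπ⟩ := main
  have hB' : ∀ i, ¬ Bd H D K v (fun c => π c i) := by
    intro i hi
    refine hπ (.inl (i, fun c => π c i)) (mem_union_left _ ?_) fun _ => rfl
    rw [hJ1, mem_map]
    exact ⟨_, mem_filter.2 ⟨mem_univ _, hi⟩, rfl⟩
  refine ⟨π, fun i a a' h => hB' i (Or.inl ⟨a, a', h⟩), ?_⟩
  intro i i' hne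
  by_contra hcon
  push Not at hcon
  refine hπ (.inr ((i, fun c => π c i), (i', fun c => π c i'))) (mem_union_right _ ?_)
    ⟨fun _ => rfl, fun _ => rfl⟩
  rw [hJ2, mem_map]
  exact ⟨_, mem_filter.2 ⟨mem_univ _, hne, fun c h => hne ((π c).injective h), hB' i, hB' i',
    hcon⟩, rfl⟩

end Pool.Agent.Helper56.HD.Multi
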