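import Pool.Agent.Helper56.HD.Bag

/-!
# Project HD (MP_950ff6_co): branch sets of size `b`, the final form
-/

set_option autoImplicit false

namespace Pool.Agent.Helper56.HD.Multi

open Finset

/-- Disjoint cliques, any two joined by an edge, carry a scheme. -/
theorem scheme_of_cliques {V : Type} {G : SimpleGraph V} {k : ℕ} (B : Fin k → Set V)
    (x : Fin k → V) (hx : ∀ i, x i ∈ B i) (hB : ∀ i, G.IsClique (B i))
    (hdis : ∀ i j, i ≠ j → Disjoint (B i) (B j))
    (hj : ∀ i j, i ≠ j → ∃ u ∈ B i, ∃ v ∈ B j, G.Adj u v) :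
    ∃ P : (i j : Fin k) → G.Walk (x i) (x j), Function.Injective x ∧
      (∀ i j, (P i j).IsPath ∧ ∀ v ∈ (P i j).support, v ∈ B i ∪ B j) ∧
      (∀ i j h l : Fin k, i ≠ h → i ≠ l → j ≠ h → j ≠ l →
        ∀ v : V, v ∈ (P i j).support → v ∉ (P h l).support) := by
  classical
  have walk_in : ∀ (i : Fin k) (u v : V), u ∈ B i → v ∈ B i →
      ∃ w : G.Walk u v, ∀ z ∈ w.support, z ∈ B i := by
    intro i u v hu hv
    by_cases huv : u = v
    · subst huv
      refine ⟨SimpleGraph.Walk.nil, fun z hz => ?_⟩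
      rw [SimpleGraph.Walk.support_nil, List.mem_singleton] at hz
      rw [hz]
      exact hu
    · have hadj : G.Adj u v := hB i hu hv huv
      refine ⟨hadj.toWalk, fun z hz => ?_⟩
      have hz' : z = u ∨ z = v := by
        simpa using hz
      rcases hz' with rfl | rfl
      · exact hu
      · exact hv
  have hwalk : ∀ i j, ∃ w : G.Walk (x i) (x j), w.IsPath ∧ ∀ v ∈ w.support, v ∈ B i ∪ B j := by
    intro i j
    by_cases hij : i = j
    · subst hij
      refine ⟨SimpleGraph.Walk.nil, SimpleGraph.Walk.IsPath.nil, fun v hv => ?_⟩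
      rw [SimpleGraph.Walk.support_nil, List.mem_singleton] at hv
      left
      rw [hv]
      exact hx i
    · obtain ⟨u, hu, v, hv, huv⟩ := hj i j hij
      obtain ⟨w1, hw1⟩ := walk_in i (x i) u (hx i) hu
      obtain ⟨w2, hw2⟩ := walk_in j v (x j) hv (hx j)
      refine ⟨((w1.append huv.toWalk).append w2).bypass,
        SimpleGraph.Walk.bypass_isPath _, fun z hz => ?_⟩
      have hz' := SimpleGraph.Walk.support_bypass_subset_support _ hz
      rw [SimpleGraph.Walk.mem_support_append_iff, SimpleGraph.Walk.mem_support_append_iff] at hz'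
      rcases hz' with (h | h) | h
      · exact Or.inl (hw1 z h)
      · have h' : z = u ∨ z = v := by simpa using h
        rcases h' with rfl | rfl
        · exact Or.inl hu
        · exact Or.inr hv
      · exact Or.inr (hw2 z h)
  choose P hP1 hP2 using hwalk
  refine ⟨P, ?_, fun i j => ⟨hP1 i j, hP2 i j⟩, ?_⟩
  · intro i j hij
    by_contra hne
    exact Set.disjoint_left.1 (hdis i j hne) (hx i) (hij ▸ hx j)
  · intro i j h l hih hil hjh hjl v hv hv'
    have h1 := hP2 i j v hv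
    have h2 := hP2 h l v hv'
    rcases h1 with h1 | h1 <;> rcases h2 with h2 | h2
    · exact Set.disjoint_left.1 (hdis i h hih) h1 h2
    · exact Set.disjoint_left.1 (hdis i l hil) h1 h2
    · exact Set.disjoint_left.1 (hdis j h hjh) h1 h2
    · exact Set.disjoint_left.1 (hdis j l hjl) h1 h2

/-- Graphs whose complement has maximum degree at most `c n ^ (1 - 1 / b ^ 2)` have `⌊n / b⌋` disjoint
cliques of size `b`, any two joined by an edge. -/
theorem large_bags (b : ℕ) (hb : 1 ≤ b) : ∃ C : ℕ, ∀ (V : Type) [Fintype V] (G : SimpleGraph V)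
    (k D : ℕ), (∀ v : V, {w | Gᶜ.Adj v w}.ncard ≤ D) →
    C * D ^ (b ^ 2) ≤ Fintype.card V ^ (b ^ 2 - 1) → b * k ≤ Fintype.card V →
    ∃ (B : Fin k → Set V) (x : Fin k → V),
      (∀ i, x i ∈ B i) ∧ (∀ i, (B i).ncard = b) ∧ (∀ i, G.IsClique (B i)) ∧
      (∀ i j, i ≠ j → Disjoint (B i) (B j)) ∧
      (∀ i j, i ≠ j → ∃ u ∈ B i, ∃ v ∈ B j, G.Adj u v) := by
  set K := 48 * b with hK
  have hKpos : 0 < K := by omega
  set C0 := 2 * K * (2 * K) ^ b with hC0
  set C1 := (K * b ^ 2) ^ (b ^ 2) * C0 with hC1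
  refine ⟨C1 * (2 * b) ^ (b ^ 2), ?_⟩
  intro V _ G k D hD hCD hk
  classical
  set n := Fintype.card V with hn
  set m := n / b with hm
  have hbm : b * m ≤ n := Nat.mul_div_le n b
  have hkm : k ≤ m := (Nat.le_div_iff_mul_le hb).2 (by rw [mul_comm]; exact hk)
  rcases Nat.eq_zero_or_pos k with hk0 | hk0
  · subst hk0
    exact ⟨fun i => i.elim0, fun i => i.elim0, fun i => i.elim0, fun i => i.elim0,
      fun i => i.elim0, fun i => i.elim0, fun i => i.elim0⟩
  have hm0 : 1 ≤ m := le_trans hk0 hkm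
  have hn2 : n ≤ 2 * b * m := by
    have h1 : n < b * (m + 1) := by
      rw [hm]
      exact Nat.lt_mul_div_succ n hb
    have h2 : b * (m + 1) = b * m + b := by ring
    have h3 : b ≤ b * m := Nat.le_mul_of_pos_right b hm0
    have h4 : 2 * b * m = b * m + b * m := by ring
    omega
  have hb2 : 1 ≤ b ^ 2 := Nat.one_le_pow _ _ hb
  have hCm : C1 * D ^ (b ^ 2) ≤ m ^ (b ^ 2 - 1) := by
    have h1 : C1 * (2 * b) ^ (b ^ 2) * D ^ (b ^ 2) ≤ (2 * b) ^ (b ^ 2) * m ^ (b ^ 2 - 1) := by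
      calc C1 * (2 * b) ^ (b ^ 2) * D ^ (b ^ 2) ≤ n ^ (b ^ 2 - 1) := hCD
        _ ≤ (2 * b * m) ^ (b ^ 2 - 1) := Nat.pow_le_pow_left hn2 _
        _ = (2 * b) ^ (b ^ 2 - 1) * m ^ (b ^ 2 - 1) := mul_pow _ _ _
        _ ≤ (2 * b) ^ (b ^ 2) * m ^ (b ^ 2 - 1) :=
            Nat.mul_le_mul_right _ (Nat.pow_le_pow_right (by omega) (Nat.sub_le _ _))
    have h2 : (2 * b) ^ (b ^ 2) * (C1 * D ^ (b ^ 2)) ≤ (2 * b) ^ (b ^ 2) * m ^ (b ^ 2 - 1) := by
      calc _ = C1 * (2 * b) ^ (b ^ 2) * D ^ (b ^ 2) := by ring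
        _ ≤ _ := h1
    exact Nat.le_of_mul_le_mul_left h2 (by positivity)
  have hC0pos : 1 ≤ C0 := by
    have : 0 < C0 := by positivity
    exact this
  have hKm : K * b ^ 2 * D ≤ m := by
    have h1 : (K * b ^ 2 * D) ^ (b ^ 2) ≤ m ^ (b ^ 2) := by
      calc (K * b ^ 2 * D) ^ (b ^ 2) = (K * b ^ 2) ^ (b ^ 2) * 1 * D ^ (b ^ 2) := by
            rw [mul_pow]; ring
        _ ≤ (K * b ^ 2) ^ (b ^ 2) * C0 * D ^ (b ^ 2) :=
            Nat.mul_le_mul_right _ (Nat.mul_le_mul_left _ hC0pos)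
        _ ≤ m ^ (b ^ 2 - 1) := hCm
        _ ≤ m ^ (b ^ 2) := Nat.pow_le_pow_right hm0 (Nat.sub_le _ _)
    exact le_of_pow_le_pow_left₀ (by omega) (Nat.zero_le _) h1
  have hC1' : 2 * K * (2 * K) ^ b ≤ C1 := by
    have h1 : 1 ≤ (K * b ^ 2) ^ (b ^ 2) := Nat.one_le_pow _ _ (by positivity)
    calc 2 * K * (2 * K) ^ b = 1 * C0 := by rw [hC0]; ring
      _ ≤ (K * b ^ 2) ^ (b ^ 2) * C0 := Nat.mul_le_mul_right _ h1
  have hD' : ∀ v, (univ.filter fun w => Gᶜ.Adj v w).card ≤ D := by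
    intro v
    have h1 := hD v
    rw [Set.ncard_eq_toFinset_card'] at h1
    refine le_trans (le_of_eq ?_) h1
    apply congrArg
    ext w
    simp
  obtain ⟨e⟩ : Nonempty (Fin b × Fin m ↪ V) := by
    apply Function.Embedding.nonempty_of_card_le
    rw [Fintype.card_prod, Fintype.card_fin, Fintype.card_fin]
    exact hbm
  obtain ⟨π, hπ1, hπ2⟩ := bag_lemma Gᶜ D K C1 (fun a i => e (a, i))
    (fun c i j h => (Prod.mk.inj (e.injective h)).2) hb hD' hK hC1' hKm hCm
  have hadj : ∀ u v : V, u ≠ v → ¬ Gᶜ.Adj u v → G.Adj u v := by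
    intro u v huv h
    by_contra hn
    exact h ((SimpleGraph.compl_adj G u v).2 ⟨huv, hn⟩)
  set g : Fin k → Fin m := Fin.castLE hkm with hg
  have hginj : Function.Injective g := Fin.castLE_injective hkm
  have hdis : ∀ i j, i ≠ j → ∀ a a', e (a, π a (g i)) ≠ e (a', π a' (g j)) := by
    intro i j hij a a' h
    have h1 := Prod.mk.inj (e.injective h)
    obtain ⟨h2, h3⟩ := h1
    subst h2
    exact hij (hginj ((π a).injective h3))
  have hinj : ∀ i : Fin k, Function.Injective fun a => e (a, π a (g i)) := by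
    intro i a a' h
    exact (Prod.mk.inj (e.injective h)).1
  refine ⟨fun i => Set.range fun a => e (a, π a (g i)),
    fun i => e (⟨0, hb⟩, π ⟨0, hb⟩ (g i)), fun i => ⟨_, rfl⟩, ?_, ?_, ?_, ?_⟩
  · intro i
    show (Set.range fun a => e (a, π a (g i))).ncard = b
    rw [← Set.image_univ, Set.ncard_image_of_injective _ (hinj i), Set.ncard_univ,
      Nat.card_eq_fintype_card, Fintype.card_fin]
  · rintro i _ ⟨a, rfl⟩ _ ⟨a', rfl⟩ hne
    exact hadj _ _ hne (hπ1 (g i) a a')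
  · intro i j hij
    rw [Set.disjoint_left]
    rintro _ ⟨a, rfl⟩ ⟨a', h⟩
    exact hdis i j hij a a' h.symm
  · intro i j hij
    obtain ⟨a, a', h⟩ := hπ2 (g i) (g j) (fun h => hij (hginj h))
    exact ⟨_, ⟨a, rfl⟩, _, ⟨a', rfl⟩, hadj _ _ (hdis i j hij a a') h⟩

/-- A large clique of a graph whose complement has small degrees. -/
theorem exists_clique {V : Type} [Fintype V] (G : SimpleGraph V) (D : ℕ)
    (hD : ∀ v : V, {w | Gᶜ.Adj v w}.ncard ≤ D) :
    ∀ q : ℕ, q * (D + 1) ≤ Fintype.card V → ∃ T : Finset V, T.card = q ∧ G.IsClique (T : Set V) := by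
  classical
  intro q
  induction q with
  | zero =>
    intro _
    exact ⟨∅, card_empty, by simp⟩
  | succ q ih =>
    intro hq
    have hq' : q * (D + 1) < Fintype.card V := by
      have : (q + 1) * (D + 1) = q * (D + 1) + (D + 1) := by ring
      omega
    obtain ⟨T, hT1, hT2⟩ := ih hq'.le
    have h1 : (T.biUnion fun v => insert v (univ.filter fun w => Gᶜ.Adj v w)).card ≤
        q * (D + 1) := by
      calc _ ≤ ∑ v ∈ T, (insert v (univ.filter fun w => Gᶜ.Adj v w)).card := card_biUnion_le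
        _ ≤ ∑ _v ∈ T, (D + 1) := by
            apply sum_le_sum
            intro v _
            refine (card_insert_le _ _).trans (Nat.succ_le_succ ?_)
            have h2 := hD v
            rw [Set.ncard_eq_toFinset_card'] at h2
            refine le_trans (le_of_eq ?_) h2
            apply congrArg
            ext w
            simp
        _ = q * (D + 1) := by rw [sum_const, hT1, smul_eq_mul]
    obtain ⟨w, hw⟩ : ∃ w, w ∉ T.biUnion fun v => insert v (univ.filter fun w => Gᶜ.Adj v w) := by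
      by_contra hcon
      push Not at hcon
      have : (univ : Finset V) ⊆ T.biUnion fun v => insert v (univ.filter fun w => Gᶜ.Adj v w) :=
        fun w _ => hcon w
      have := card_le_card this
      rw [card_univ] at this
      omega
    have hw' : ∀ v ∈ T, w ≠ v ∧ ¬ Gᶜ.Adj v w := by
      intro v hv
      constructor
      · rintro rfl
        exact hw (mem_biUnion.2 ⟨w, hv, mem_insert_self _ _⟩)
      · intro h
        exact hw (mem_biUnion.2 ⟨v, hv, mem_insert_of_mem (mem_filter.2 ⟨mem_univ _, h⟩)⟩)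
    have hwT : w ∉ T := fun h => (hw' w h).1 rfl
    refine ⟨insert w T, by rw [card_insert_of_notMem hwT, hT1], ?_⟩
    rw [coe_insert]
    apply hT2.insert
    intro v hv hne
    have h3 := hw' v hv
    by_contra hn
    exact h3.2 ((SimpleGraph.compl_adj G v w).2 ⟨hne.symm, fun h => hn h.symm⟩)

/-- The conclusion with an arbitrary finite index type. -/
def Bags {V : Type} (G : SimpleGraph V) (b : ℕ) (ι : Type) : Prop :=
  ∃ (B : ι → Set V) (x : ι → V),
      (∀ i, x i ∈ B i) ∧ (∀ i, (B i).ncard ≤ b) ∧ (∀ i, G.IsClique (B i)) ∧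
      (∀ i j, i ≠ j → Disjoint (B i) (B j)) ∧
      (∀ i j, i ≠ j → ∃ u ∈ B i, ∃ v ∈ B j, G.Adj u v)

theorem Bags.mono {V : Type} {G : SimpleGraph V} {b : ℕ} {ι κ : Type} (f : κ → ι)
    (hf : Function.Injective f) (h : Bags G b ι) : Bags G b κ := by
  obtain ⟨B, x, h1, h2, h3, h4, h5⟩ := h
  exact ⟨B ∘ f, x ∘ f, fun i => h1 _, fun i => h2 _, fun i => h3 _,
    fun i j hij => h4 _ _ (fun h => hij (hf h)), fun i j hij => h5 _ _ (fun h => hij (hf h))⟩

/-- The case where `b k = n + s` with `0 < s < b`: `s` bags of size `b - 1` are chosen first. -/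
theorem extra_bags (c : ℕ) (hc : 1 ≤ c) {V : Type} [Fintype V] (G : SimpleGraph V)
    (m s D C : ℕ) (hD : ∀ v : V, {w | Gᶜ.Adj v w}.ncard ≤ D) (hs : s ≤ c)
    (hn : Fintype.card V = (c + 1) * m + s * c) (hn2 : c * c * (D + 1) ≤ Fintype.card V)
    (hm : c * c * D ≤ m)
    (hC1 : 2 * (48 * (c + 1)) * (2 * (48 * (c + 1))) ^ (c + 1) ≤ C)
    (hK : 48 * (c + 1) * (c + 1) ^ 2 * D ≤ m)
    (hC : C * D ^ ((c + 1) ^ 2) ≤ m ^ ((c + 1) ^ 2 - 1)) :
    Bags G (c + 1) (Fin m ⊕ Fin s) := by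
  classical
  have hD' : ∀ v, (univ.filter fun w => Gᶜ.Adj v w).card ≤ D := by
    intro v
    have h1 := hD v
    rw [Set.ncard_eq_toFinset_card'] at h1
    refine le_trans (le_of_eq ?_) h1
    apply congrArg
    ext w
    simp
  have hadj : ∀ u v : V, u ≠ v → ¬ Gᶜ.Adj u v → G.Adj u v := by
    intro u v huv h
    by_contra hn
    exact h ((SimpleGraph.compl_adj G u v).2 ⟨huv, hn⟩)
  obtain ⟨T, hT1, hT2⟩ := exists_clique G D hD (s * c)
    ((Nat.mul_le_mul_right _ (Nat.mul_le_mul_right _ hs)).trans hn2)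
  set N : Finset V := T.biUnion fun v => univ.filter fun w => Gᶜ.Adj v w with hN
  have hNc : N.card ≤ m := by
    calc N.card ≤ ∑ v ∈ T, (univ.filter fun w => Gᶜ.Adj v w).card := card_biUnion_le
      _ ≤ ∑ _v ∈ T, D := sum_le_sum fun v _ => hD' v
      _ = s * c * D := by rw [sum_const, hT1, smul_eq_mul]
      _ ≤ c * c * D := Nat.mul_le_mul_right _ (Nat.mul_le_mul_right _ hs)
      _ ≤ m := hm
  have hR : (univ \ T).card = (c + 1) * m := by
    rw [card_sdiff_of_subset (subset_univ _), card_univ, hT1, hn]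
    omega
  obtain ⟨S, hS1, hS2, hS3⟩ := exists_subsuperset_card_eq (s := N \ T) (t := univ \ T) (n := m)
    (sdiff_subset_sdiff (subset_univ _) le_rfl) ((card_le_card sdiff_subset).trans hNc)
    (by rw [hR]; exact Nat.le_mul_of_pos_left m (Nat.succ_pos c))
  have hR2 : ((univ \ T) \ S).card = c * m := by
    rw [card_sdiff_of_subset hS2, hR, hS3]
    have : (c + 1) * m = c * m + m := by ring
    omega
  have e0 : Fin m ≃ S := (Fintype.equivFinOfCardEq (by rw [Fintype.card_coe, hS3])).symm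
  have e1 : Fin c × Fin m ≃ ((univ \ T) \ S : Finset V) :=
    Fintype.equivOfCardEq (by rw [Fintype.card_coe, hR2, Fintype.card_prod, Fintype.card_fin,
      Fintype.card_fin])
  have e2 : Fin s × Fin c ≃ T :=
    Fintype.equivOfCardEq (by rw [Fintype.card_coe, hT1, Fintype.card_prod, Fintype.card_fin,
      Fintype.card_fin])
  set v : Fin (c + 1) → Fin m → V :=
    Fin.cons (fun j => (e0 j : V)) (fun a j => (e1 (a, j) : V)) with hv
  have v0 : ∀ j, v 0 j = e0 j := fun j => rfl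
  have v1 : ∀ a j, v (Fin.succ a) j = e1 (a, j) := fun a j => rfl
  have hvT : ∀ a j, v a j ∉ T := by
    intro a j
    refine Fin.cases ?_ (fun a => ?_) a
    · rw [v0]
      exact (mem_sdiff.1 (hS2 (e0 j).2)).2
    · rw [v1]
      exact (mem_sdiff.1 (mem_sdiff.1 (e1 (a, j)).2).1).2
  have hvN : ∀ a j, v (Fin.succ a) j ∉ N := by
    intro a j h
    have h1 := (mem_sdiff.1 (e1 (a, j)).2).2
    rw [v1] at h
    exact h1 (hS1 (mem_sdiff.2 ⟨h, (mem_sdiff.1 (mem_sdiff.1 (e1 (a, j)).2).1).2⟩))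
  have hvinj : ∀ a a' j j', v a j = v a' j' → a = a' ∧ j = j' := by
    intro a a' j j'
    refine Fin.cases ?_ (fun a => ?_) a
    · refine Fin.cases ?_ (fun a' => ?_) a'
      · intro h
        rw [v0, v0] at h
        exact ⟨rfl, e0.injective (Subtype.ext h)⟩
      · intro h
        rw [v0, v1] at h
        exact absurd (h ▸ (e0 j).2) (mem_sdiff.1 (e1 (a', j')).2).2
    · refine Fin.cases ?_ (fun a' => ?_) a'
      · intro h
        rw [v0, v1] at h
        exact absurd (h ▸ (e0 j').2) (mem_sdiff.1 (e1 (a, j)).2).2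
      · intro h
        rw [v1, v1] at h
        have h1 := Prod.mk.inj (e1.injective (Subtype.ext h))
        exact ⟨congrArg _ h1.1, h1.2⟩
  obtain ⟨π, hπ1, hπ2⟩ := bag_lemma Gᶜ D (48 * (c + 1)) C v
    (fun a j j' h => (hvinj a a j j' h).2) (Nat.succ_pos c) hD' rfl hC1 hK hC
  have hTc : ∀ i : Fin m, ∀ t ∈ T, G.Adj (v (Fin.succ ⟨0, hc⟩) (π (Fin.succ ⟨0, hc⟩) i)) t := by
    intro i t ht
    apply hadj
    · intro h
      exact hvT _ _ (h ▸ ht)
    · intro h
      exact hvN _ _ (mem_biUnion.2 ⟨t, ht, mem_filter.2 ⟨mem_univ _, h.symm⟩⟩)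
  refine ⟨Sum.elim (fun i => Set.range fun a => v a (π a i)) (fun j => Set.range fun a => (e2 (j, a) : V)),
    Sum.elim (fun i => v 0 (π 0 i)) (fun j => (e2 (j, ⟨0, hc⟩) : V)), ?_, ?_, ?_, ?_, ?_⟩
  · rintro (i | j)
    · exact ⟨0, rfl⟩
    · exact ⟨⟨0, hc⟩, rfl⟩
  · rintro (i | j)
    · show (Set.range fun a => v a (π a i)).ncard ≤ c + 1
      rw [← Set.image_univ]
      refine (Set.ncard_image_le Set.finite_univ).trans ?_
      rw [Set.ncard_univ, Nat.card_eq_fintype_card, Fintype.card_fin]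
    · show (Set.range fun a => (e2 (j, a) : V)).ncard ≤ c + 1
      rw [← Set.image_univ]
      refine (Set.ncard_image_le Set.finite_univ).trans ?_
      rw [Set.ncard_univ, Nat.card_eq_fintype_card, Fintype.card_fin]
      exact Nat.le_succ c
  · rintro (i | j)
    · rintro _ ⟨a, rfl⟩ _ ⟨a', rfl⟩ hne
      exact hadj _ _ hne (hπ1 i a a')
    · rintro _ ⟨a, rfl⟩ _ ⟨a', rfl⟩ hne
      exact hT2 (e2 (j, a)).2 (e2 (j, a')).2 hne
  · rintro (i | j) (i' | j') hne
    · rw [Set.disjoint_left]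
      rintro _ ⟨a, rfl⟩ ⟨a', h⟩
      obtain ⟨h1, h2⟩ := hvinj _ _ _ _ h
      subst h1
      exact hne (congrArg _ ((π a').injective h2).symm)
    · rw [Set.disjoint_left]
      rintro _ ⟨a, rfl⟩ ⟨a', h⟩
      have h' : (e2 (j', a') : V) = v a (π a i) := h
      exact hvT a (π a i) (h' ▸ (e2 (j', a')).2)
    · rw [Set.disjoint_left]
      rintro _ ⟨a, rfl⟩ ⟨a', h⟩
      have h' : (e2 (j, a) : V) = v a' (π a' i') := h.symm
      exact hvT a' (π a' i') (h' ▸ (e2 (j, a)).2)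
    · rw [Set.disjoint_left]
      rintro _ ⟨a, rfl⟩ ⟨a', h⟩
      have h1 := Prod.mk.inj (e2.injective (Subtype.ext h))
      exact hne (congrArg _ h1.1.symm)
  · rintro (i | j) (i' | j') hne
    · obtain ⟨a, a', h⟩ := hπ2 i i' (fun h => hne (congrArg _ h))
      refine ⟨_, ⟨a, rfl⟩, _, ⟨a', rfl⟩, hadj _ _ ?_ h⟩
      intro h'
      obtain ⟨h1, h2⟩ := hvinj _ _ _ _ h'
      subst h1
      exact hne (congrArg _ ((π a).injective h2))
    · exact ⟨_, ⟨Fin.succ ⟨0, hc⟩, rfl⟩, _, ⟨⟨0, hc⟩, rfl⟩, hTc i _ (e2 _).2⟩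
    · exact ⟨_, ⟨⟨0, hc⟩, rfl⟩, _, ⟨Fin.succ ⟨0, hc⟩, rfl⟩, (hTc i' _ (e2 _).2).symm⟩
    · refine ⟨_, ⟨⟨0, hc⟩, rfl⟩, _, ⟨⟨0, hc⟩, rfl⟩, hT2 (e2 _).2 (e2 _).2 ?_⟩
      intro h
      have h1 := Prod.mk.inj (e2.injective (Subtype.ext h))
      exact hne (congrArg _ h1.1)

/-- Graphs whose complement has maximum degree at most `c n ^ (1 - 1 / b ^ 2)` have `⌈n / b⌉` disjoint
cliques of size at most `b`, any two joined by an edge. -/
theorem ceil_bags (b : ℕ) (hb : 1 ≤ b) : ∃ C : ℕ, ∀ (V : Type) [Fintype V] (G : SimpleGraph V)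
    (k D : ℕ), (∀ v : V, {w | Gᶜ.Adj v w}.ncard ≤ D) →
    C * D ^ (b ^ 2) ≤ Fintype.card V ^ (b ^ 2 - 1) → b * k < Fintype.card V + b →
    Bags G b (Fin k) := by
  obtain ⟨CL, hCL⟩ := large_bags b hb
  set K := 48 * b with hK
  have hKpos : 0 < K := by omega
  set C0 := 2 * K * (2 * K) ^ b with hC0
  set C1 := (K * b ^ 2) ^ (b ^ 2) * C0 with hC1
  refine ⟨CL + C1 * (2 * b) ^ (b ^ 2) + (2 * b ^ 2) ^ (b ^ 2), ?_⟩
  intro V _ G k D hD hCD hk
  classical
  set n := Fintype.card V with hn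
  have hb2 : 1 ≤ b ^ 2 := Nat.one_le_pow _ _ hb
  have hCD1 : CL * D ^ (b ^ 2) ≤ n ^ (b ^ 2 - 1) := le_trans (Nat.mul_le_mul_right _ (by omega)) hCD
  have hCD2 : C1 * (2 * b) ^ (b ^ 2) * D ^ (b ^ 2) ≤ n ^ (b ^ 2 - 1) :=
    le_trans (Nat.mul_le_mul_right _ (by omega)) hCD
  have hCD3 : (2 * b ^ 2) ^ (b ^ 2) * D ^ (b ^ 2) ≤ n ^ (b ^ 2 - 1) :=
    le_trans (Nat.mul_le_mul_right _ (by omega)) hCD
  rcases Nat.eq_zero_or_pos k with hk0 | hk0
  · subst hk0
    exact ⟨fun i => i.elim0, fun i => i.elim0, fun i => i.elim0, fun i => i.elim0,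
      fun i => i.elim0, fun i => i.elim0, fun i => i.elim0⟩
  rcases Nat.eq_zero_or_pos D with hD0 | hD0
  · -- a complete graph
    have hkn : k ≤ n := by
      have h1 : k * 1 ≤ k * b := Nat.mul_le_mul_left _ hb
      have h2 : b * (k - 1) < n := by
        have : b * k = b * (k - 1) + b := by
          obtain ⟨j, rfl⟩ : ∃ j, k = j + 1 := ⟨k - 1, by omega⟩
          simp only [Nat.add_sub_cancel]
          ring
        omega
      have h3 : k - 1 ≤ b * (k - 1) := Nat.le_mul_of_pos_left _ hb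
      omega
    obtain ⟨e⟩ : Nonempty (Fin k ↪ V) := by
      apply Function.Embedding.nonempty_of_card_le
      rw [Fintype.card_fin]
      exact hkn
    have hadj : ∀ u v : V, u ≠ v → G.Adj u v := by
      intro u v huv
      by_contra h
      have h1 := hD u
      rw [hD0, Nat.le_zero, Set.ncard_eq_zero (Set.toFinite _)] at h1
      have h2 : v ∈ ({w | Gᶜ.Adj u w} : Set V) := (SimpleGraph.compl_adj G u v).2 ⟨huv, h⟩
      rw [h1] at h2
      exact h2
    refine ⟨fun i => {e i}, e, fun i => rfl, fun i => ?_, fun i => ?_, fun i j hij => ?_,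
      fun i j hij => ?_⟩
    · show ({e i} : Set V).ncard ≤ b
      rw [Set.ncard_singleton]
      exact hb
    · exact Set.pairwise_singleton _ _
    · exact Set.disjoint_singleton.2 (fun h => hij (e.injective h))
    · exact ⟨_, rfl, _, rfl, hadj _ _ (fun h => hij (e.injective h))⟩
  by_cases hkb : b * k ≤ n
  · obtain ⟨B, x, h1, h2, h3, h4, h5⟩ := hCL V G k D hD hCD1 hkb
    exact ⟨B, x, h1, fun i => (h2 i).le, h3, h4, h5⟩
  have hDp : 1 ≤ D ^ (b ^ 2) := Nat.one_le_pow _ _ hD0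
  have hn0 : 0 < n := by
    rcases Nat.eq_zero_or_pos n with h | h
    · rw [h] at hCD3 hk
      have h1 : b * k < b * 1 := by omega
      have h2 := Nat.lt_of_mul_lt_mul_left h1
      omega
    · exact h
  have hnb : 2 * b ^ 2 ≤ n := by
    have h1 : (2 * b ^ 2) ^ (b ^ 2) ≤ n ^ (b ^ 2) := by
      calc (2 * b ^ 2) ^ (b ^ 2) = (2 * b ^ 2) ^ (b ^ 2) * 1 := by ring
        _ ≤ (2 * b ^ 2) ^ (b ^ 2) * D ^ (b ^ 2) := Nat.mul_le_mul_left _ hDp
        _ ≤ n ^ (b ^ 2 - 1) := hCD3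
        _ ≤ n ^ (b ^ 2) := Nat.pow_le_pow_right hn0 (Nat.sub_le _ _)
    exact le_of_pow_le_pow_left₀ (by omega) (Nat.zero_le _) h1
  obtain ⟨c, hc⟩ : ∃ c, b = c + 1 := ⟨b - 1, by omega⟩
  have hc1 : 1 ≤ c := by
    by_contra hcon
    have h0 : c = 0 := by omega
    have h1 : b = 1 := by omega
    rw [h1] at hk hkb
    omega
  set s := b * k - n with hs
  have hs1 : 1 ≤ s := by omega
  have hsc : s ≤ c := by omega
  have hbk : b * k = n + s := by omega
  have hsk : s ≤ k := by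
    have h1 : 2 * b ^ 2 ≤ b * k := by omega
    have h2 : b * (2 * b) ≤ b * k := by
      calc b * (2 * b) = 2 * b ^ 2 := by ring
        _ ≤ _ := h1
    have h3 := Nat.le_of_mul_le_mul_left h2 hb
    omega
  obtain ⟨m, hm⟩ : ∃ m, k = m + s := ⟨k - s, by omega⟩
  have hnm : n = (c + 1) * m + s * c := by
    have h1 : (c + 1) * (m + s) = n + s := by rw [← hc, ← hm]; exact hbk
    have h2 : (c + 1) * (m + s) = (c + 1) * m + s * c + s := by ring
    omega
  have hcc : s * c ≤ c * c := Nat.mul_le_mul_right _ hsc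
  have hb2c : b ^ 2 = c * c + 2 * c + 1 := by rw [hc]; ring
  have hn2 : n ≤ 2 * b * m := by
    have h1 : 2 * b * m = 2 * ((c + 1) * m) := by rw [hc]; ring
    omega
  have hm0 : 1 ≤ m := by
    rcases Nat.eq_zero_or_pos m with h | h
    · rw [h] at hn2
      omega
    · exact h
  have hCm : C1 * D ^ (b ^ 2) ≤ m ^ (b ^ 2 - 1) := by
    have h1 : C1 * (2 * b) ^ (b ^ 2) * D ^ (b ^ 2) ≤ (2 * b) ^ (b ^ 2) * m ^ (b ^ 2 - 1) := by
      calc C1 * (2 * b) ^ (b ^ 2) * D ^ (b ^ 2) ≤ n ^ (b ^ 2 - 1) := hCD2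
        _ ≤ (2 * b * m) ^ (b ^ 2 - 1) := Nat.pow_le_pow_left hn2 _
        _ = (2 * b) ^ (b ^ 2 - 1) * m ^ (b ^ 2 - 1) := mul_pow _ _ _
        _ ≤ (2 * b) ^ (b ^ 2) * m ^ (b ^ 2 - 1) :=
            Nat.mul_le_mul_right _ (Nat.pow_le_pow_right (by omega) (Nat.sub_le _ _))
    have h2 : (2 * b) ^ (b ^ 2) * (C1 * D ^ (b ^ 2)) ≤ (2 * b) ^ (b ^ 2) * m ^ (b ^ 2 - 1) := by
      calc _ = C1 * (2 * b) ^ (b ^ 2) * D ^ (b ^ 2) := by ring
        _ ≤ _ := h1
    exact Nat.le_of_mul_le_mul_left h2 (by positivity)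
  have hC0pos : 1 ≤ C0 := by
    have : 0 < C0 := by positivity
    exact this
  have hKm : K * b ^ 2 * D ≤ m := by
    have h1 : (K * b ^ 2 * D) ^ (b ^ 2) ≤ m ^ (b ^ 2) := by
      calc (K * b ^ 2 * D) ^ (b ^ 2) = (K * b ^ 2) ^ (b ^ 2) * 1 * D ^ (b ^ 2) := by
            rw [mul_pow]; ring
        _ ≤ (K * b ^ 2) ^ (b ^ 2) * C0 * D ^ (b ^ 2) :=
            Nat.mul_le_mul_right _ (Nat.mul_le_mul_left _ hC0pos)
        _ ≤ m ^ (b ^ 2 - 1) := hCm
        _ ≤ m ^ (b ^ 2) := Nat.pow_le_pow_right hm0 (Nat.sub_le _ _)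
    exact le_of_pow_le_pow_left₀ (by omega) (Nat.zero_le _) h1
  have hC1' : 2 * K * (2 * K) ^ b ≤ C1 := by
    have h1 : 1 ≤ (K * b ^ 2) ^ (b ^ 2) := Nat.one_le_pow _ _ (by positivity)
    calc 2 * K * (2 * K) ^ b = 1 * C0 := by rw [hC0]; ring
      _ ≤ (K * b ^ 2) ^ (b ^ 2) * C0 := Nat.mul_le_mul_right _ h1
  have hccD : 2 * (c * c * D) ≤ m := by
    have h1 : 2 * (c * c) ≤ K * b ^ 2 := by
      have h2 : 2 * b ^ 2 ≤ K * b ^ 2 := Nat.mul_le_mul_right _ (by omega)
      omega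
    calc 2 * (c * c * D) = 2 * (c * c) * D := by ring
      _ ≤ K * b ^ 2 * D := Nat.mul_le_mul_right _ h1
      _ ≤ m := hKm
  have hmn : m ≤ n := by
    have h1 : m ≤ (c + 1) * m := Nat.le_mul_of_pos_left m (Nat.succ_pos c)
    omega
  have hcD1 : c * c * (D + 1) ≤ n := by
    have h1 : c * c * (D + 1) ≤ 2 * (c * c * D) := by
      calc c * c * (D + 1) ≤ c * c * (D + D) := Nat.mul_le_mul_left _ (by omega)
        _ = 2 * (c * c * D) := by ring
    omega
  have key : Bags G (c + 1) (Fin m ⊕ Fin s) := by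
    apply extra_bags c hc1 G m s D C1 hD hsc hnm hcD1 (by omega)
    · rw [← hc]
      exact hC1'
    · rw [← hc]
      exact hKm
    · rw [← hc]
      exact hCm
  rw [hc]
  rw [hm]
  exact key.mono _ finSumFinEquiv.symm.injective

end Pool.Agent.Helper56.HD.Multi
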