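import Pool.Agent.Helper56.HD.Pair
import Pool.Agent.Helper56.HD.St.TB

/-!
# Project HD (MP_950ff6_co): assembling the branch sets
-/

set_option autoImplicit false

namespace Pool.Agent.Helper56.HD

open Finset

variable {V : Type} [Fintype V] [DecidableEq V]

/-- `k` disjoint cliques with one or two vertices (given as pairs), any two joined by an edge. -/
def Target (G : SimpleGraph V) (k : ℕ) : Prop :=
  ∃ f : Fin k → V × V, (∀ i, (f i).1 = (f i).2 ∨ G.Adj (f i).1 (f i).2) ∧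
    ∀ i j, i ≠ j → ((f i).1 ≠ (f j).1 ∧ (f i).1 ≠ (f j).2 ∧ (f i).2 ≠ (f j).1 ∧
      (f i).2 ≠ (f j).2) ∧ (G.Adj (f i).1 (f j).1 ∨ G.Adj (f i).1 (f j).2 ∨
        G.Adj (f i).2 (f j).1 ∨ G.Adj (f i).2 (f j).2)

omit [Fintype V] [DecidableEq V] in
theorem adj_of_compl {G : SimpleGraph V} {u v : V} (h : ¬ Gᶜ.Adj u v) (hne : u ≠ v) :
    G.Adj u v := by
  rw [SimpleGraph.compl_adj] at h
  by_contra hcon
  exact h ⟨hne, hcon⟩

theorem core (G : SimpleGraph V) [DecidableRel Gᶜ.Adj] (D m k : ℕ) (P Q S : Finset V)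
    (hPQ : Disjoint P Q) (hPS : Disjoint P S) (hQS : Disjoint Q S) (hP : P.card = m)
    (hQ : Q.card = m) (F : V → V → Prop) [DecidableRel F]
    (hD : ∀ v, (univ.filter fun w => Gᶜ.Adj v w).card ≤ D)
    (hF1 : ∀ u ∈ P, 128 * (Q.filter fun v => F u v).card ≤ m)
    (hF2 : ∀ v ∈ Q, 128 * (P.filter fun u => F u v).card ≤ m)
    (hm : 2 ^ 24 * D ^ 4 ≤ m ^ 3)
    (hS : ∀ x ∈ S, ∀ y ∈ S, x ≠ y → G.Adj x y)
    (hSF : ∀ x ∈ S, ∀ u ∈ P, ∀ v ∈ Q, ¬ F u v → G.Adj x u ∨ G.Adj x v)
    (hk : k ≤ m + S.card) : Target G k := by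
  classical
  set eP := P.equivFinOfCardEq hP with heP
  set eQ := Q.equivFinOfCardEq hQ with heQ
  set p : Fin m → V := fun i => (eP.symm i).1 with hp
  set q : Fin m → V := fun i => (eQ.symm i).1 with hq
  have hpP : ∀ i, p i ∈ P := fun i => (eP.symm i).2
  have hqQ : ∀ i, q i ∈ Q := fun i => (eQ.symm i).2
  have hpi : Function.Injective p := fun i j h => eP.symm.injective (Subtype.ext h)
  have hqi : Function.Injective q := fun i j h => eQ.symm.injective (Subtype.ext h)
  obtain ⟨π, h1, h2⟩ := pair_lemma Gᶜ m D p q hpi hqi F hD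
    (fun i => le_trans (Nat.mul_le_mul_left _ (card_le_card_of_injOn q
      (fun j hj => mem_coe.2 (mem_filter.2 ⟨hqQ j, (mem_filter.1 (mem_coe.1 hj)).2⟩))
      (fun j _ j' _ h => hqi h))) (hF1 (p i) (hpP i)))
    (fun j => le_trans (Nat.mul_le_mul_left _ (card_le_card_of_injOn p
      (fun i hi => mem_coe.2 (mem_filter.2 ⟨hpP i, (mem_filter.1 (mem_coe.1 hi)).2⟩))
      (fun i _ i' _ h => hpi h))) (hF2 (q j) (hqQ j)))
    hm
  have hne1 : ∀ i j, p i ≠ q j := fun i j h => (disjoint_left.1 hPQ) (hpP i) (h ▸ hqQ j)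
  have hne2 : ∀ i, ∀ x ∈ S, p i ≠ x := fun i x hx h => (disjoint_left.1 hPS) (hpP i) (h ▸ hx)
  have hne3 : ∀ i, ∀ x ∈ S, q i ≠ x := fun i x hx h => (disjoint_left.1 hQS) (hqQ i) (h ▸ hx)
  -- the index type
  have hcard : k ≤ Fintype.card (Fin m ⊕ S) := by
    rw [Fintype.card_sum, Fintype.card_fin, Fintype.card_coe]
    exact hk
  obtain ⟨g⟩ : Nonempty (Fin k ↪ Fin m ⊕ S) := by
    apply Function.Embedding.nonempty_of_card_le
    rw [Fintype.card_fin]
    exact hcard
  let f0 : Fin m ⊕ S → V × V := fun z => Sum.elim (fun i => (p i, q (π i))) (fun x => (x.1, x.1)) z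
  have hf0 : ∀ z, (f0 z).1 = (f0 z).2 ∨ G.Adj (f0 z).1 (f0 z).2 := by
    intro z
    rcases z with i | x
    · exact Or.inr (adj_of_compl (h1 i).2 (hne1 _ _))
    · exact Or.inl rfl
  have hf1 : ∀ z z', z ≠ z' → ((f0 z).1 ≠ (f0 z').1 ∧ (f0 z).1 ≠ (f0 z').2 ∧
      (f0 z).2 ≠ (f0 z').1 ∧ (f0 z).2 ≠ (f0 z').2) ∧ (G.Adj (f0 z).1 (f0 z').1 ∨
        G.Adj (f0 z).1 (f0 z').2 ∨ G.Adj (f0 z).2 (f0 z').1 ∨ G.Adj (f0 z).2 (f0 z').2) := by
    intro z z' hzz
    rcases z with i | x <;> rcases z' with i' | x'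
    · have hii : i ≠ i' := fun h => hzz (by rw [h])
      refine ⟨⟨fun h => hii (hpi h), hne1 _ _, (hne1 _ _).symm,
        fun h => hii (π.injective (hqi h))⟩, ?_⟩
      by_contra hcon
      simp only [not_or] at hcon
      refine h2 i i' hii ⟨?_, ?_, ?_, ?_⟩
      · by_contra h
        exact hcon.1 (adj_of_compl h (fun h => hii (hpi h)))
      · by_contra h
        exact hcon.2.1 (adj_of_compl h (hne1 _ _))
      · by_contra h
        exact hcon.2.2.1 (adj_of_compl h (hne1 _ _).symm)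
      · by_contra h
        exact hcon.2.2.2 (adj_of_compl h (fun h => hii (π.injective (hqi h))))
    · refine ⟨⟨hne2 _ _ x'.2, hne2 _ _ x'.2, hne3 _ _ x'.2, hne3 _ _ x'.2⟩, ?_⟩
      rcases hSF x'.1 x'.2 (p i) (hpP i) (q (π i)) (hqQ _) (h1 i).1 with h | h
      · exact Or.inl h.symm
      · exact Or.inr (Or.inr (Or.inl h.symm))
    · refine ⟨⟨(hne2 _ _ x.2).symm, (hne3 _ _ x.2).symm, (hne2 _ _ x.2).symm,
        (hne3 _ _ x.2).symm⟩, ?_⟩
      rcases hSF x.1 x.2 (p i') (hpP i') (q (π i')) (hqQ _) (h1 i').1 with h | h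
      · exact Or.inl h
      · exact Or.inr (Or.inl h)
    · have hxx : x.1 ≠ x'.1 := fun h => hzz (by rw [Subtype.ext h])
      exact ⟨⟨hxx, hxx, hxx, hxx⟩, Or.inl (hS x.1 x.2 x'.1 x'.2 hxx)⟩
  exact ⟨fun i => f0 (g i), fun i => hf0 _, fun i j hij => hf1 _ _ (fun h => hij (g.injective h))⟩

theorem target_of_large (G : SimpleGraph V) (k s D : ℕ)
    (hk : G.chromaticNumber = (k : ℕ∞))
    (hs : ∀ C : Finset V, G.IsClique C → C.card + s ≤ Fintype.card V)
    (hD : ∀ v, {w | Gᶜ.Adj v w}.ncard ≤ D)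
    (h : 2 ^ 33 * D ^ 4 ≤ s ^ 3) : Target G k := by
  classical
  obtain ⟨A, X, c, k', hAX, hAXc, hc, hcX, hk', hcol⟩ := tutte_berge Gᶜ
  rw [compl_compl] at hcol
  have hkk : k ≤ k' := by
    have := hcol.chromaticNumber_le
    rw [hk] at this
    exact_mod_cast this
  have hD' : ∀ v, (univ.filter fun w => Gᶜ.Adj v w).card ≤ D := by
    intro v
    have h1 := hD v
    rw [Set.ncard_eq_toFinset_card'] at h1
    refine le_trans (le_of_eq ?_) h1
    congr 1
    ext w
    simp
  have hXA : ∀ x ∈ X, x ∉ A := fun x hx hxA => (disjoint_left.1 hAX) hxA hx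
  have hXG : ∀ x ∈ X, ∀ y ∈ X, x ≠ y → G.Adj x y := by
    intro x hx y hy hxy
    apply adj_of_compl _ hxy
    intro hadj
    exact hxy (hcX x hx y hy (hc x y (hXA x hx) (hXA y hy) hadj))
  have hXcl : X.card + s ≤ Fintype.card V := by
    apply hs
    intro x hx y hy hxy
    exact hXG x hx y hy hxy
  set W : Finset V := univ \ (A ∪ X) with hW
  have hWA : ∀ v ∈ W, v ∉ A := fun v hv hvA =>
    (mem_sdiff.1 hv).2 (mem_union_left _ hvA)
  have hWX : ∀ v ∈ W, v ∉ X := fun v hv hvX =>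
    (mem_sdiff.1 hv).2 (mem_union_right _ hvX)
  have hWc : W.card + A.card + X.card = Fintype.card V := by
    have h1 := card_sdiff_add_card_eq_card (subset_univ (A ∪ X))
    rw [card_union_of_disjoint hAX, card_univ] at h1
    rw [hW]
    omega
  by_cases hcase : s ≤ 4 * W.card
  · -- Case 1: many vertices in `W`
    obtain ⟨m, hm⟩ : ∃ m, W.card = 2 * m := ⟨k' - X.card, by omega⟩
    obtain ⟨P, hPW, hPc⟩ := exists_subset_card_eq (s := W) (n := m) (by omega)
    set Q := W \ P with hQ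
    have hQc : Q.card = m := by
      have := card_sdiff_add_card_eq_card hPW
      rw [hQ]
      omega
    have hPQ : Disjoint P Q := disjoint_sdiff
    have hQW : Q ⊆ W := sdiff_subset
    have hm3 : 2 ^ 24 * D ^ 4 ≤ m ^ 3 := by
      have h1 : s ^ 3 ≤ (8 * m) ^ 3 := Nat.pow_le_pow_left (by omega) 3
      have h2 : (8 * m) ^ 3 = 2 ^ 9 * m ^ 3 := by ring
      omega
    have hDm : 128 * D ≤ m := by
      by_contra hcon
      rw [not_le] at hcon
      have h1 : m ^ 3 < (256 * D) ^ 3 := Nat.pow_lt_pow_left (by omega) (by norm_num)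
      have hD1 : 1 ≤ D := by
        rcases Nat.eq_zero_or_pos D with h | h
        · subst h
          omega
        · exact h
      have h2 : (256 * D) ^ 3 ≤ 2 ^ 24 * D ^ 4 := by
        have h3 : D ^ 3 ≤ D ^ 4 := Nat.pow_le_pow_right hD1 (by norm_num)
        calc (256 * D) ^ 3 = 2 ^ 24 * D ^ 3 := by ring
          _ ≤ 2 ^ 24 * D ^ 4 := Nat.mul_le_mul_left _ h3
      omega
    have hFc : ∀ u ∈ W, ∀ T : Finset V,
        128 * (T.filter fun v => ∃ x ∈ X, Gᶜ.Adj x u ∧ Gᶜ.Adj x v).card ≤ m := by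
      intro u hu T
      refine le_trans (Nat.mul_le_mul_left _ ?_) hDm
      by_cases hex : ∃ x ∈ X, Gᶜ.Adj x u
      · obtain ⟨x, hx, hxu⟩ := hex
        refine le_trans (card_le_card ?_) (hD' x)
        intro v hv
        obtain ⟨_, y, hy, hyu, hyv⟩ := mem_filter.1 hv
        have h1 : c x = c y := (hc x u (hXA x hx) (hWA u hu) hxu).trans
          (hc y u (hXA y hy) (hWA u hu) hyu).symm
        rw [← hcX x hx y hy h1] at hyv
        exact mem_filter.2 ⟨mem_univ _, hyv⟩
      · have : (T.filter fun v => ∃ x ∈ X, Gᶜ.Adj x u ∧ Gᶜ.Adj x v) = ∅ := by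
          rw [filter_eq_empty_iff]
          rintro v _ ⟨x, hx, hxu, _⟩
          exact hex ⟨x, hx, hxu⟩
        rw [this]
        simp
    refine core G D m k P Q X hPQ ?_ ?_ hPc hQc
      (fun u v => ∃ x ∈ X, Gᶜ.Adj x u ∧ Gᶜ.Adj x v) hD' (fun u hu => hFc u (hPW hu) Q) ?_ hm3
      hXG ?_ (by omega)
    · exact disjoint_left.2 fun v hv hv' => hWX v (hPW hv) hv'
    · exact disjoint_left.2 fun v hv hv' => hWX v (hQW hv) hv'
    · intro v hv
      have := hFc v (hQW hv) P
      refine le_trans (le_of_eq ?_) this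
      congr 2
      ext u
      simp only [mem_filter]
      constructor
      · rintro ⟨h1, x, h2, h3, h4⟩
        exact ⟨h1, x, h2, h4, h3⟩
      · rintro ⟨h1, x, h2, h3, h4⟩
        exact ⟨h1, x, h2, h4, h3⟩
    · intro x hx u hu v hv hF
      by_contra hcon
      rw [not_or] at hcon
      apply hF
      refine ⟨x, hx, ?_, ?_⟩
      · by_contra h
        exact hcon.1 (adj_of_compl h fun h => hWX u (hPW hu) (h ▸ hx))
      · by_contra h
        exact hcon.2 (adj_of_compl h fun h => hWX v (hQW hv) (h ▸ hx))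
  · -- Case 2: few vertices in `W`
    rw [not_le] at hcase
    set X3 := X.filter fun x => ∃ v, v ∉ A ∧ Gᶜ.Adj x v with hX3
    have hX3c : X3.card ≤ W.card := by
      have hch : ∀ x ∈ X3, ∃ v, v ∉ A ∧ Gᶜ.Adj x v := fun x hx => (mem_filter.1 hx).2
      choose! g hg1 hg2 using hch
      have hX3X : ∀ x ∈ X3, x ∈ X := fun x hx => (mem_filter.1 hx).1
      have hcg : ∀ x ∈ X3, c x = c (g x) := fun x hx =>
        hc x (g x) (hXA x (hX3X x hx)) (hg1 x hx) (hg2 x hx)
      apply card_le_card_of_injOn g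
      · intro x hx
        have hx' := mem_coe.1 hx
        rw [mem_coe, hW, mem_sdiff, mem_union, not_or]
        refine ⟨mem_univ _, hg1 x hx', fun hgX => ?_⟩
        have h1 := hcX x (hX3X x hx') (g x) hgX (hcg x hx')
        have h2 := hg2 x hx'
        rw [← h1] at h2
        exact h2.ne rfl
      · intro x hx y hy hxy
        have hx' := mem_coe.1 hx
        have hy' := mem_coe.1 hy
        apply hcX x (hX3X x hx') y (hX3X y hy')
        rw [hcg x hx', hcg y hy', hxy]
    have hX3X : X3 ⊆ X := filter_subset _ _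
    set Y0 := W ∪ X3 with hY0
    have hdWX3 : Disjoint W X3 := disjoint_left.2 fun v hv hv' => hWX v hv (hX3X hv')
    have hY0c : Y0.card = W.card + X3.card := card_union_of_disjoint hdWX3
    set T1 := X \ X3 with hT1
    have hT1c : T1.card + X3.card = X.card := card_sdiff_add_card_eq_card hX3X
    obtain ⟨X', hX'T, hX'c⟩ := exists_subset_card_eq (s := T1) (n := A.card - Y0.card) (by omega)
    have hT1X : T1 ⊆ X := sdiff_subset
    have hdY : Disjoint Y0 X' := by
      refine disjoint_left.2 fun v hv hv' => ?_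
      have h1 := hX'T hv'
      rcases mem_union.1 hv with h2 | h2
      · exact hWX v h2 (hT1X h1)
      · exact (mem_sdiff.1 h1).2 h2
    set Y := Y0 ∪ X' with hY
    have hYc : Y.card = A.card := by
      rw [hY, card_union_of_disjoint hdY]
      omega
    have hYA : ∀ v ∈ Y, v ∉ A := by
      intro v hv
      rcases mem_union.1 hv with h1 | h1
      · rcases mem_union.1 h1 with h2 | h2
        · exact hWA v h2
        · exact hXA v (hX3X h2)
      · exact hXA v (hT1X (hX'T h1))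
    set S := T1 \ X' with hS
    have hSc : S.card + X'.card = T1.card := card_sdiff_add_card_eq_card hX'T
    have hST : S ⊆ T1 := sdiff_subset
    have hSY : ∀ v ∈ S, v ∉ Y := by
      intro v hv hvY
      rcases mem_union.1 hvY with h1 | h1
      · rcases mem_union.1 h1 with h2 | h2
        · exact hWX v h2 (hT1X (hST hv))
        · exact (mem_sdiff.1 (hST hv)).2 h2
      · exact (mem_sdiff.1 hv).2 h1
    refine core G D A.card k A Y S (disjoint_left.2 fun v hv hv' => hYA v hv' hv) ?_ ?_ rfl hYc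
      (fun _ _ => False) hD' ?_ ?_ ?_ ?_ ?_ (by omega)
    · exact disjoint_left.2 fun v hv hv' => hXA v (hT1X (hST hv')) hv
    · exact disjoint_left.2 fun v hv hv' => hSY v hv' hv
    · intro u _
      simp
    · intro u _
      simp
    · have h1 : s ≤ 2 * A.card := by omega
      have h2 : s ^ 3 ≤ (2 * A.card) ^ 3 := Nat.pow_le_pow_left h1 3
      have h3 : (2 * A.card) ^ 3 = 2 ^ 3 * A.card ^ 3 := by ring
      omega
    · intro x hx y hy hxy
      exact hXG x (hT1X (hST hx)) y (hT1X (hST hy)) hxy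
    · intro x hx u _ v hv _
      right
      apply adj_of_compl
      · intro hadj
        apply (mem_sdiff.1 (hST hx)).2
        exact mem_filter.2 ⟨hT1X (hST hx), v, hYA v hv, hadj⟩
      · intro hxv
        exact hSY x hx (hxv ▸ hv)

end Pool.Agent.Helper56.HD
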