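import Pool.Agent.Helper56.HD.Core

/-!
# Project HD (MP_950ff6_co): from the pairs to the branch sets and the scheme
-/

set_option autoImplicit false

namespace Pool.Agent.Helper56.HD

/-- Two vertices of a clique given as a pair are joined by a walk inside it. -/
theorem walk_in {V : Type} {G : SimpleGraph V} {a b u v : V} (h : a = b ∨ G.Adj a b)
    (hu : u = a ∨ u = b) (hv : v = a ∨ v = b) :
    ∃ w : G.Walk u v, ∀ z ∈ w.support, z = a ∨ z = b := by
  by_cases huv : u = v
  · subst huv
    refine ⟨SimpleGraph.Walk.nil, fun z hz => ?_⟩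
    rw [SimpleGraph.Walk.support_nil, List.mem_singleton] at hz
    rw [hz]
    exact hu
  · have hadj : G.Adj u v := by
      rcases hu with rfl | rfl <;> rcases hv with rfl | rfl
      · exact absurd rfl huv
      · exact h.resolve_left huv
      · exact (h.resolve_left (fun h => huv h.symm)).symm
      · exact absurd rfl huv
    refine ⟨hadj.toWalk, fun z hz => ?_⟩
    have hz' : z = u ∨ z = v := by
      simpa using hz
    rcases hz' with rfl | rfl
    · exact hu
    · exact hv

theorem final {V : Type} {G : SimpleGraph V} {k : ℕ} (h : Target G k) :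
    ∃ (B : Fin k → Set V) (x : Fin k → V) (P : (i j : Fin k) → G.Walk (x i) (x j)),
      (∀ i, x i ∈ B i ∧ (B i).ncard ≤ 2 ∧ G.IsClique (B i)) ∧
      (∀ i j, i ≠ j → Disjoint (B i) (B j) ∧ ∃ u ∈ B i, ∃ v ∈ B j, G.Adj u v) ∧
      Function.Injective x ∧
      (∀ i j, (P i j).IsPath ∧ ∀ v ∈ (P i j).support, v ∈ B i ∪ B j) ∧
      (∀ i j h l : Fin k, i ≠ h → i ≠ l → j ≠ h → j ≠ l →
        ∀ v : V, v ∈ (P i j).support → v ∉ (P h l).support) := by
  classical
  obtain ⟨f, hf1, hf2⟩ := h
  have hmem : ∀ i z, z ∈ ({(f i).1, (f i).2} : Set V) ↔ z = (f i).1 ∨ z = (f i).2 := by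
    intro i z
    rw [Set.mem_insert_iff, Set.mem_singleton_iff]
  have hwalk : ∀ i j, ∃ w : G.Walk (f i).1 (f j).1, w.IsPath ∧
      ∀ v ∈ w.support, v ∈ ({(f i).1, (f i).2} : Set V) ∪ {(f j).1, (f j).2} := by
    intro i j
    by_cases hij : i = j
    · subst hij
      refine ⟨SimpleGraph.Walk.nil, SimpleGraph.Walk.IsPath.nil, fun v hv => ?_⟩
      rw [SimpleGraph.Walk.support_nil, List.mem_singleton] at hv
      left
      rw [hmem]
      exact Or.inl hv
    · obtain ⟨u, v, hu, hv, huv⟩ : ∃ u v, (u = (f i).1 ∨ u = (f i).2) ∧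
          (v = (f j).1 ∨ v = (f j).2) ∧ G.Adj u v := by
        rcases (hf2 i j hij).2 with h | h | h | h
        · exact ⟨_, _, Or.inl rfl, Or.inl rfl, h⟩
        · exact ⟨_, _, Or.inl rfl, Or.inr rfl, h⟩
        · exact ⟨_, _, Or.inr rfl, Or.inl rfl, h⟩
        · exact ⟨_, _, Or.inr rfl, Or.inr rfl, h⟩
      obtain ⟨w1, hw1⟩ := walk_in (hf1 i) (Or.inl rfl) hu
      obtain ⟨w2, hw2⟩ := walk_in (hf1 j) hv (Or.inl rfl)
      refine ⟨((w1.append huv.toWalk).append w2).bypass,
        SimpleGraph.Walk.bypass_isPath _, fun z hz => ?_⟩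
      have hz' := SimpleGraph.Walk.support_bypass_subset _ hz
      rw [SimpleGraph.Walk.mem_support_append_iff, SimpleGraph.Walk.mem_support_append_iff] at hz'
      rcases hz' with (h | h) | h
      · left
        rw [hmem]
        exact hw1 z h
      · have h' : z = u ∨ z = v := by simpa using h
        rcases h' with rfl | rfl
        · left
          rw [hmem]
          exact hu
        · right
          rw [hmem]
          exact hv
      · right
        rw [hmem]
        exact hw2 z h
  choose P hP1 hP2 using hwalk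
  have hdis : ∀ i j, i ≠ j → Disjoint ({(f i).1, (f i).2} : Set V) {(f j).1, (f j).2} := by
    intro i j hij
    obtain ⟨h1, h2, h3, h4⟩ := (hf2 i j hij).1
    rw [Set.disjoint_left]
    intro z hz hz'
    rw [hmem] at hz hz'
    rcases hz with rfl | rfl <;> rcases hz' with h | h
    · exact h1 h
    · exact h2 h
    · exact h3 h
    · exact h4 h
  refine ⟨fun i => {(f i).1, (f i).2}, fun i => (f i).1, P, fun i => ⟨?_, ?_, ?_⟩,
    fun i j hij => ⟨hdis i j hij, ?_⟩, ?_, fun i j => ⟨hP1 i j, hP2 i j⟩, ?_⟩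
  · exact Set.mem_insert _ _
  · exact (Set.ncard_insert_le _ _).trans (by simp)
  · intro u hu v hv huv
    rw [hmem] at hu hv
    rcases hu with rfl | rfl <;> rcases hv with rfl | rfl
    · exact absurd rfl huv
    · exact (hf1 i).resolve_left huv
    · exact ((hf1 i).resolve_left (fun h => huv h.symm)).symm
    · exact absurd rfl huv
  · rcases (hf2 i j hij).2 with h | h | h | h
    · exact ⟨_, Set.mem_insert _ _, _, Set.mem_insert _ _, h⟩
    · exact ⟨_, Set.mem_insert _ _, _, Set.mem_insert_of_mem _ rfl, h⟩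
    · exact ⟨_, Set.mem_insert_of_mem _ rfl, _, Set.mem_insert _ _, h⟩
    · exact ⟨_, Set.mem_insert_of_mem _ rfl, _, Set.mem_insert_of_mem _ rfl, h⟩
  · intro i j hij
    by_contra hne
    exact (hf2 i j hne).1.1 hij
  · intro i j h l hih hil hjh hjl v hv hv'
    have h1 := hP2 i j v hv
    have h2 := hP2 h l v hv'
    rcases h1 with h1 | h1 <;> rcases h2 with h2 | h2
    · exact Set.disjoint_left.1 (hdis i h hih) h1 h2
    · exact Set.disjoint_left.1 (hdis i l hil) h1 h2
    · exact Set.disjoint_left.1 (hdis j h hjh) h1 h2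
    · exact Set.disjoint_left.1 (hdis j l hjl) h1 h2

end Pool.Agent.Helper56.HD
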