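import Mathlib

/-!
# Project HD (MP_950ff6_co): a lopsided local lemma and its use for random permutations
-/

set_option autoImplicit false

namespace Pool.Agent.Helper56.HD

open Finset

/-- none of the events in `T` happens -/
def Avoid {κ Ω : Type*} (A : κ → Ω → Prop) (T : Finset κ) (ω : Ω) : Prop :=
  ∀ j ∈ T, ¬ A j ω

/-- the number of outcomes with a property -/
noncomputable def cnt {Ω : Type*} (P : Ω → Prop) : ℝ := (({ω | P ω} : Set Ω).ncard : ℝ)

section Abstract

variable {κ Ω : Type*} [Fintype Ω]

theorem cnt_nonneg (P : Ω → Prop) : 0 ≤ cnt P := Nat.cast_nonneg _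

theorem cnt_mono {P Q : Ω → Prop} (h : ∀ ω, P ω → Q ω) : cnt P ≤ cnt Q := by
  unfold cnt
  exact_mod_cast Set.ncard_le_ncard (fun ω hω => h ω hω) (Set.toFinite _)

theorem cnt_split (P Q : Ω → Prop) : cnt P = cnt (fun ω => P ω ∧ Q ω) +
    cnt (fun ω => P ω ∧ ¬ Q ω) := by
  unfold cnt
  rw [← Nat.cast_add, ← Set.ncard_union_eq _ (Set.toFinite _) (Set.toFinite _)]
  · congr 2
    ext ω
    simp only [Set.mem_setOf_eq, Set.mem_union]
    tauto
  · rw [Set.disjoint_left]
    intro ω h1 h2
    exact h2.2 h1.2

theorem cnt_or_le (P Q : Ω → Prop) : cnt (fun ω => P ω ∨ Q ω) ≤ cnt P + cnt Q := by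
  rw [cnt_split (fun ω => P ω ∨ Q ω) P]
  exact add_le_add (cnt_mono fun ω h => h.2) (cnt_mono fun ω h => h.1.resolve_left h.2)

theorem cnt_exists_le (T : Finset κ) (P : κ → Ω → Prop) :
    cnt (fun ω => ∃ j ∈ T, P j ω) ≤ ∑ j ∈ T, cnt (P j) := by
  classical
  induction T using Finset.induction_on with
  | empty =>
    have : cnt (fun ω : Ω => ∃ j ∈ (∅ : Finset κ), P j ω) = 0 := by
      unfold cnt
      simp
    rw [this, sum_empty]
  | insert a T ha ih =>
    rw [sum_insert ha]
    refine le_trans (cnt_mono (Q := fun ω => P a ω ∨ ∃ j ∈ T, P j ω) fun ω h => ?_)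
      ((cnt_or_le _ _).trans (add_le_add le_rfl ih))
    obtain ⟨j, hj, h⟩ := h
    rcases mem_insert.1 hj with rfl | hj
    · exact Or.inl h
    · exact Or.inr ⟨j, hj, h⟩

/-- Lopsided local lemma: `R i j` means that `i` and `j` may be in conflict; if the conditional
probability of `A i` given that some events not in conflict with `i` are avoided is at most `p i`, and
the `p j` with `j` in conflict with `i` add up to at most `1/4`, then all events can be avoided. -/
theorem lll [Nonempty Ω] [DecidableEq κ] (J : Finset κ) (A : κ → Ω → Prop) (p : κ → ℝ)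
    (R : κ → κ → Prop) [DecidableRel R] (hp : ∀ i ∈ J, 0 ≤ p i)
    (hlop : ∀ i ∈ J, ∀ T ⊆ J, (∀ j ∈ T, ¬ R i j) →
      cnt (fun ω => A i ω ∧ Avoid A T ω) ≤ p i * cnt (Avoid A T))
    (hself : ∀ i ∈ J, p i ≤ 1 / 4)
    (hsum : ∀ i ∈ J, ∑ j ∈ J.filter (fun j => R i j), p j ≤ 1 / 4) :
    ∃ ω, ∀ j ∈ J, ¬ A j ω := by
  classical
  have key : ∀ T : Finset κ, T ⊆ J →
      (∀ i ∈ J, i ∉ T → cnt (fun ω => A i ω ∧ Avoid A T ω) ≤ 2 * p i * cnt (Avoid A T)) ∧
        0 < cnt (Avoid A T) := by
    intro T
    induction T using Finset.strongInduction with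
    | H T ih =>
      intro hTJ
      refine ⟨?_, ?_⟩
      · intro i hi hiT
        set T₁ := T.filter (fun j => R i j) with hT₁
        set T₂ := T.filter (fun j => ¬ R i j) with hT₂
        have hT₂T : T₂ ⊆ T := Finset.filter_subset _ _
        have hstep1 : cnt (fun ω => A i ω ∧ Avoid A T ω) ≤ p i * cnt (Avoid A T₂) := by
          refine le_trans (cnt_mono fun ω hω => ?_)
            (hlop i hi T₂ (hT₂T.trans hTJ) fun j hj => (Finset.mem_filter.1 hj).2)
          exact ⟨hω.1, fun j hj => hω.2 j (hT₂T hj)⟩
        have hstep2 : cnt (Avoid A T₂) ≤ 2 * cnt (Avoid A T) := by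
          by_cases hne : T₁ = ∅
          · have : T₂ = T := by
              apply Finset.Subset.antisymm hT₂T
              intro j hj
              rw [hT₂, Finset.mem_filter]
              refine ⟨hj, fun hcon => ?_⟩
              have : j ∈ T₁ := Finset.mem_filter.2 ⟨hj, hcon⟩
              rw [hne] at this
              exact absurd this (by simp)
            rw [this]
            have := cnt_nonneg (Avoid A T)
            linarith
          · obtain ⟨j₀, hj₀⟩ := Finset.nonempty_iff_ne_empty.2 hne
            have hssub : T₂ ⊂ T := by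
              refine ⟨hT₂T, fun hcon => ?_⟩
              have h1 := hcon (Finset.mem_filter.1 hj₀).1
              exact (Finset.mem_filter.1 h1).2 (Finset.mem_filter.1 hj₀).2
            have ih2 := ih T₂ hssub (hT₂T.trans hTJ)
            have hbound : cnt (Avoid A T₂) ≤ cnt (Avoid A T) +
                ∑ j ∈ T₁, cnt (fun ω => A j ω ∧ Avoid A T₂ ω) := by
              rw [cnt_split (Avoid A T₂) (Avoid A T)]
              refine add_le_add (cnt_mono fun ω hω => hω.2) ?_
              refine le_trans (cnt_mono fun ω hω => ?_)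
                (cnt_exists_le T₁ (fun j ω => A j ω ∧ Avoid A T₂ ω))
              obtain ⟨h1, h2⟩ := hω
              unfold Avoid at h2
              push Not at h2
              obtain ⟨j, hj, hA⟩ := h2
              refine ⟨j, ?_, hA, h1⟩
              rw [hT₁, Finset.mem_filter]
              refine ⟨hj, ?_⟩
              by_contra hd
              exact h1 j (Finset.mem_filter.2 ⟨hj, hd⟩) hA
            have hbound2 : ∑ j ∈ T₁, cnt (fun ω => A j ω ∧ Avoid A T₂ ω) ≤
                (1 / 2) * cnt (Avoid A T₂) := by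
              calc ∑ j ∈ T₁, cnt (fun ω => A j ω ∧ Avoid A T₂ ω)
                  ≤ ∑ j ∈ T₁, 2 * p j * cnt (Avoid A T₂) := by
                    refine Finset.sum_le_sum fun j hj => ?_
                    have hjT := (Finset.mem_filter.1 hj).1
                    refine ih2.1 j (hTJ hjT) fun hcon => ?_
                    exact (Finset.mem_filter.1 hcon).2 (Finset.mem_filter.1 hj).2
                _ = 2 * (∑ j ∈ T₁, p j) * cnt (Avoid A T₂) := by
                    rw [Finset.mul_sum, Finset.sum_mul]
                _ ≤ (1 / 2) * cnt (Avoid A T₂) := by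
                    apply mul_le_mul_of_nonneg_right _ (cnt_nonneg _)
                    have h1 : ∑ j ∈ T₁, p j ≤ 1 / 4 := by
                      refine le_trans ?_ (hsum i hi)
                      apply Finset.sum_le_sum_of_subset_of_nonneg
                      · intro j hj
                        rw [Finset.mem_filter] at hj ⊢
                        exact ⟨hTJ hj.1, hj.2⟩
                      · intro j hj _
                        exact hp j (Finset.mem_filter.1 hj).1
                    linarith
            linarith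
        calc cnt (fun ω => A i ω ∧ Avoid A T ω) ≤ p i * cnt (Avoid A T₂) := hstep1
          _ ≤ p i * (2 * cnt (Avoid A T)) := mul_le_mul_of_nonneg_left hstep2 (hp i hi)
          _ = _ := by ring
      · by_cases hne : T = ∅
        · subst hne
          obtain ⟨ω₀⟩ := (inferInstance : Nonempty Ω)
          unfold cnt
          have : 0 < ({ω | Avoid A ∅ ω} : Set Ω).ncard := by
            rw [Set.ncard_pos (Set.toFinite _)]
            exact ⟨ω₀, fun j hj => absurd hj (by simp)⟩
          exact_mod_cast this
        · obtain ⟨i, hi⟩ := Finset.nonempty_iff_ne_empty.2 hne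
          have hssub : T.erase i ⊂ T := Finset.erase_ssubset hi
          have ih2 := ih (T.erase i) hssub (hssub.1.trans hTJ)
          have h1 := ih2.1 i (hTJ hi) (Finset.notMem_erase i T)
          have h2 := hself i (hTJ hi)
          have h3 : cnt (Avoid A (T.erase i)) = cnt (fun ω => A i ω ∧ Avoid A (T.erase i) ω) +
              cnt (Avoid A T) := by
            rw [cnt_split (Avoid A (T.erase i)) (A i)]
            congr 1
            · congr 1
              funext ω
              exact propext and_comm
            · congr 1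
              funext ω
              apply propext
              constructor
              · rintro ⟨ha, hb⟩ j hj
                by_cases hji : j = i
                · rw [hji]
                  exact hb
                · exact ha j (Finset.mem_erase.2 ⟨hji, hj⟩)
              · intro ha
                exact ⟨fun j hj => ha j (Finset.mem_of_mem_erase hj), ha i hi⟩
          have h4 := ih2.2
          have h5 : 2 * p i * cnt (Avoid A (T.erase i)) ≤
              (1 / 2) * cnt (Avoid A (T.erase i)) := by
            apply mul_le_mul_of_nonneg_right _ h4.le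
            linarith
          linarith
  have h := (key J (Finset.Subset.refl _)).2
  have h' : ({ω | Avoid A J ω} : Set Ω).Nonempty := by
    rw [← Set.ncard_pos (Set.toFinite _)]
    unfold cnt at h
    exact_mod_cast h
  obtain ⟨ω, hω⟩ := h'
  exact ⟨ω, hω⟩

end Abstract

/-! ### Random permutations -/

section Perm

variable {m : ℕ}

/-- Changing the value of `π` at `k` from `l` to another one. -/
theorem step (P : Equiv.Perm (Fin m) → Prop) (k l : Fin m) (S : Finset (Fin m))
    (h : ∀ π, P π → π k = l → ∀ l' ∈ S, P (Equiv.swap l l' * π)) :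
    cnt (fun π => P π ∧ π k = l) * (S.card : ℝ) ≤ cnt P := by
  unfold cnt
  rw [← Nat.cast_mul]
  have h0 : (S.card : ℕ) = (S : Set (Fin m)).ncard := (Set.ncard_coe_finset S).symm
  rw [h0, ← Set.ncard_prod]
  have : (({π | P π ∧ π k = l} : Set (Equiv.Perm (Fin m))) ×ˢ (S : Set (Fin m))).ncard ≤
      ({π | P π} : Set (Equiv.Perm (Fin m))).ncard := by
    apply Set.ncard_le_ncard_of_injOn (fun x => Equiv.swap l x.2 * x.1)
    · intro x hx
      exact h x.1 hx.1.1 hx.1.2 x.2 (by simpa using hx.2)
    · intro x hx y hy hxy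
      have h1 : (Equiv.swap l x.2 * x.1) k = x.2 := by
        rw [Equiv.Perm.mul_apply, hx.1.2, Equiv.swap_apply_left]
      have h2 : (Equiv.swap l y.2 * y.1) k = y.2 := by
        rw [Equiv.Perm.mul_apply, hy.1.2, Equiv.swap_apply_left]
      have h3 : x.2 = y.2 := by
        rw [← h1, ← h2]
        exact congrArg (fun π : Equiv.Perm (Fin m) => π k) hxy
      have h4 : x.1 = y.1 := by
        have h5 : Equiv.swap l x.2 * x.1 = Equiv.swap l x.2 * y.1 := by
          have : Equiv.swap l y.2 * y.1 = Equiv.swap l x.2 * y.1 := by rw [h3]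
          exact hxy.trans this
        exact mul_left_cancel h5
      exact Prod.ext h4 h3
  exact_mod_cast this

/-- Events: one prescribed value, or two prescribed values. -/
abbrev Ev (m : ℕ) := (Fin m × Fin m) ⊕ ((Fin m × Fin m) × (Fin m × Fin m))

/-- The event happens. -/
def hap : Ev m → Equiv.Perm (Fin m) → Prop
  | .inl x, π => π x.1 = x.2
  | .inr x, π => π x.1.1 = x.1.2 ∧ π x.2.1 = x.2.2

/-- The positions of an event. -/
def pos : Ev m → Finset (Fin m)
  | .inl x => {x.1}
  | .inr x => {x.1.1, x.2.1}

/-- The values of an event. -/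
def val : Ev m → Finset (Fin m)
  | .inl x => {x.2}
  | .inr x => {x.1.2, x.2.2}

/-- Conflict. -/
def Cf (e f : Ev m) : Prop := ¬ (Disjoint (pos e) (pos f) ∧ Disjoint (val e) (val f))

instance : DecidableRel (Cf (m := m)) := fun e f => by unfold Cf; infer_instance

/-- Weights. -/
noncomputable def wt : Ev m → ℝ
  | .inl _ => 1 / m
  | .inr _ => 1 / (m * (m - 1))

/-- Avoidance is kept when the value `l` at a position `k` is changed, if the events avoided do not use
`k` and `l`. -/
theorem avoid_swap (T : Finset (Ev m)) (π : Equiv.Perm (Fin m)) (k l l' : Fin m)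
    (hT : ∀ t ∈ T, k ∉ pos t ∧ l ∉ val t) (hπ : π k = l) (h : Avoid hap T π) :
    Avoid hap T (Equiv.swap l l' * π) := by
  have key : ∀ a b : Fin m, a ≠ k → b ≠ l → (Equiv.swap l l' * π) a = b → π a = b := by
    intro a b ha hb hab
    rw [Equiv.Perm.mul_apply] at hab
    by_cases h1 : π a = l
    · exact absurd (π.injective (h1.trans hπ.symm)) ha
    · by_cases h2 : π a = l'
      · rw [h2, Equiv.swap_apply_right] at hab
        exact absurd hab.symm hb
      · rwa [Equiv.swap_apply_of_ne_of_ne h1 h2] at hab
  intro t ht hh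
  refine h t ht ?_
  have hkt := hT t ht
  cases t with
  | inl x =>
    simp only [pos, val, mem_singleton] at hkt
    exact key _ _ (fun h => hkt.1 h.symm) (fun h => hkt.2 h.symm) hh
  | inr x =>
    simp only [pos, val, mem_insert, mem_singleton, not_or] at hkt
    exact ⟨key _ _ (fun h => hkt.1.1 h.symm) (fun h => hkt.2.1 h.symm) hh.1,
      key _ _ (fun h => hkt.1.2 h.symm) (fun h => hkt.2.2 h.symm) hh.2⟩

theorem lop (e : Ev m) (he : ∀ x, e = .inr x → x.1.1 ≠ x.2.1 ∧ x.1.2 ≠ x.2.2)
    (T : Finset (Ev m)) (hT : ∀ t ∈ T, ¬ Cf e t) :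
    cnt (fun π => hap e π ∧ Avoid hap T π) ≤ wt e * cnt (Avoid hap T) := by
  cases e with
  | inl x =>
    have hm : (0 : ℝ) < m := by
      have : 0 < m := x.1.pos
      exact_mod_cast this
    have h1 := step (Avoid hap T) x.1 x.2 univ (fun π hπ hk l' _ => by
      refine avoid_swap T π x.1 x.2 l' (fun t ht => ?_) hk hπ
      have := hT t ht
      unfold Cf at this
      rw [not_not] at this
      simpa [pos, val] using this)
    rw [card_univ, Fintype.card_fin] at h1
    have h2 : cnt (fun π => hap (.inl x) π ∧ Avoid hap T π) =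
        cnt (fun π : Equiv.Perm (Fin m) => Avoid hap T π ∧ π x.1 = x.2) := by
      congr 1
      funext π
      exact propext and_comm
    rw [h2, wt, one_div, ← div_eq_inv_mul, le_div_iff₀ hm]
    exact h1
  | inr x =>
    obtain ⟨hne1, hne2⟩ := he x rfl
    have hm2 : 2 ≤ m := by
      by_contra hcon
      have h1 := x.1.1.isLt
      have h2 := x.2.1.isLt
      apply hne1
      apply Fin.ext
      omega
    have hm : (0 : ℝ) < m := by
      have : 0 < m := by omega
      exact_mod_cast this
    have hm' : (0 : ℝ) < (m : ℝ) - 1 := by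
      have : (2 : ℝ) ≤ m := by exact_mod_cast hm2
      linarith
    have hT' : ∀ t ∈ T, (x.1.1 ∉ pos t ∧ x.1.2 ∉ val t) ∧ (x.2.1 ∉ pos t ∧ x.2.2 ∉ val t) := by
      intro t ht
      have := hT t ht
      unfold Cf at this
      rw [not_not] at this
      simp only [pos, val, disjoint_insert_left, disjoint_singleton_left] at this
      exact ⟨⟨this.1.1, this.2.1⟩, ⟨this.1.2, this.2.2⟩⟩
    have h1 := step (Avoid hap T) x.1.1 x.1.2 univ (fun π hπ hk l' _ =>
      avoid_swap T π x.1.1 x.1.2 l' (fun t ht => (hT' t ht).1) hk hπ)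
    have h2 := step (fun π => Avoid hap T π ∧ π x.1.1 = x.1.2) x.2.1 x.2.2 (univ.erase x.1.2)
      (fun π hπ hk l' hl' => by
        refine ⟨avoid_swap T π x.2.1 x.2.2 l' (fun t ht => (hT' t ht).2) hk hπ.1, ?_⟩
        rw [Equiv.Perm.mul_apply, hπ.2]
        exact Equiv.swap_apply_of_ne_of_ne hne2 (fun h => (mem_erase.1 hl').1 h.symm))
    rw [card_univ, Fintype.card_fin] at h1
    have hcard : (((univ.erase x.1.2 : Finset (Fin m)).card : ℕ) : ℝ) = (m : ℝ) - 1 := by
      rw [card_erase_of_mem (mem_univ _), card_univ, Fintype.card_fin]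
      rw [Nat.cast_sub (by omega)]
      simp
    rw [hcard] at h2
    have h3 : cnt (fun π => hap (.inr x) π ∧ Avoid hap T π) =
        cnt (fun π : Equiv.Perm (Fin m) => (Avoid hap T π ∧ π x.1.1 = x.1.2) ∧
          π x.2.1 = x.2.2) := by
      congr 1
      funext π
      apply propext
      show (π x.1.1 = x.1.2 ∧ π x.2.1 = x.2.2) ∧ Avoid hap T π ↔ _
      tauto
    rw [h3, wt, one_div, ← div_eq_inv_mul, le_div_iff₀ (by positivity)]
    calc cnt (fun π : Equiv.Perm (Fin m) => (Avoid hap T π ∧ π x.1.1 = x.1.2) ∧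
          π x.2.1 = x.2.2) * ((m : ℝ) * (m - 1))
        = (cnt (fun π : Equiv.Perm (Fin m) => (Avoid hap T π ∧ π x.1.1 = x.1.2) ∧
          π x.2.1 = x.2.2) * ((m : ℝ) - 1)) * m := by ring
      _ ≤ cnt (fun π : Equiv.Perm (Fin m) => Avoid hap T π ∧ π x.1.1 = x.1.2) * m :=
          mul_le_mul_of_nonneg_right h2 hm.le
      _ ≤ cnt (Avoid hap T) := h1

/-- The local lemma for permutations. -/
theorem perm_lll (J : Finset (Ev m))
    (hJ : ∀ x, (Sum.inr x : Ev m) ∈ J → x.1.1 ≠ x.2.1 ∧ x.1.2 ≠ x.2.2)
    (hpos : ∀ i : Fin m, ∑ f ∈ J.filter (fun f => i ∈ pos f), wt f ≤ 1 / 16)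
    (hval : ∀ i : Fin m, ∑ f ∈ J.filter (fun f => i ∈ val f), wt f ≤ 1 / 16) :
    ∃ π : Equiv.Perm (Fin m), ∀ f ∈ J, ¬ hap f π := by
  classical
  have hwt0 : ∀ f : Ev m, 0 ≤ wt f := by
    intro f
    cases f with
    | inl x =>
      show (0 : ℝ) ≤ 1 / m
      positivity
    | inr x =>
      show (0 : ℝ) ≤ 1 / (m * (m - 1))
      have : 1 ≤ m := by
        have := x.1.1.isLt
        omega
      have h1 : (0 : ℝ) ≤ (m : ℝ) - 1 := by
        have : (1 : ℝ) ≤ m := by exact_mod_cast this
        linarith
      positivity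
  have hpne : ∀ f : Ev m, ∃ i, i ∈ pos f := by
    intro f
    cases f with
    | inl x => exact ⟨x.1, by simp [pos]⟩
    | inr x => exact ⟨x.1.1, by simp [pos]⟩
  have hcp : ∀ f : Ev m, (pos f).card ≤ 2 := by
    intro f
    cases f with
    | inl x => simp [pos]
    | inr x => exact card_le_two
  have hcv : ∀ f : Ev m, (val f).card ≤ 2 := by
    intro f
    cases f with
    | inl x => simp [val]
    | inr x => exact card_le_two
  have hsum : ∀ e ∈ J, ∑ f ∈ J.filter (fun f => Cf e f), wt f ≤ 1 / 4 := by
    intro e _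
    have hsub : J.filter (fun f => Cf e f) ⊆
        ((pos e).biUnion fun i => J.filter (fun f => i ∈ pos f)) ∪
        ((val e).biUnion fun i => J.filter (fun f => i ∈ val f)) := by
      intro f hf
      rw [mem_filter] at hf
      rw [mem_union, mem_biUnion, mem_biUnion]
      have h := hf.2
      unfold Cf at h
      rw [not_and_or, not_disjoint_iff, not_disjoint_iff] at h
      rcases h with ⟨i, h1, h2⟩ | ⟨i, h1, h2⟩
      · exact Or.inl ⟨i, h1, mem_filter.2 ⟨hf.1, h2⟩⟩
      · exact Or.inr ⟨i, h1, mem_filter.2 ⟨hf.1, h2⟩⟩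
    have hb : ∀ (S : Finset (Fin m)) (g : Fin m → Finset (Ev m)), S.card ≤ 2 →
        (∀ i, ∑ f ∈ g i, wt f ≤ 1 / 16) → ∑ f ∈ S.biUnion g, wt f ≤ 1 / 8 := by
      intro S g hS hg
      calc ∑ f ∈ S.biUnion g, wt f ≤ ∑ i ∈ S, ∑ f ∈ g i, wt f := by
            clear hS
            induction S using Finset.induction_on with
            | empty => simp
            | insert a S ha ih =>
              rw [biUnion_insert, sum_insert ha]
              have h1 := sum_union_inter (s₁ := g a) (s₂ := S.biUnion g) (f := wt)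
              have h2 := sum_nonneg (s := g a ∩ S.biUnion g) fun f _ => hwt0 f
              linarith
        _ ≤ ∑ _i ∈ S, (1 / 16 : ℝ) := sum_le_sum fun i _ => hg i
        _ = S.card * (1 / 16) := by rw [sum_const, nsmul_eq_mul]
        _ ≤ 2 * (1 / 16) := by
            apply mul_le_mul_of_nonneg_right _ (by norm_num)
            exact_mod_cast hS
        _ = 1 / 8 := by norm_num
    calc ∑ f ∈ J.filter (fun f => Cf e f), wt f
        ≤ ∑ f ∈ ((pos e).biUnion fun i => J.filter (fun f => i ∈ pos f)) ∪
          ((val e).biUnion fun i => J.filter (fun f => i ∈ val f)), wt f :=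
          sum_le_sum_of_subset_of_nonneg hsub fun f _ _ => hwt0 f
      _ ≤ ∑ f ∈ ((pos e).biUnion fun i => J.filter (fun f => i ∈ pos f)), wt f +
          ∑ f ∈ ((val e).biUnion fun i => J.filter (fun f => i ∈ val f)), wt f := by
          rw [← sum_union_inter]
          have := sum_nonneg (s := ((pos e).biUnion fun i => J.filter (fun f => i ∈ pos f)) ∩
            ((val e).biUnion fun i => J.filter (fun f => i ∈ val f))) fun f _ => hwt0 f
          linarith
      _ ≤ 1 / 8 + 1 / 8 := add_le_add (hb _ _ (hcp e) hpos) (hb _ _ (hcv e) hval)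
      _ = 1 / 4 := by norm_num
  obtain ⟨π, hπ⟩ := lll J (hap (m := m)) wt Cf (fun i _ => hwt0 i)
    (fun e he T _ hcf => lop e (fun x hx => hJ x (hx ▸ he)) T hcf)
    (fun e he => by
      obtain ⟨i, hi⟩ := hpne e
      have h1 : wt e ≤ ∑ f ∈ J.filter (fun f => i ∈ pos f), wt f :=
        single_le_sum (f := fun f => wt f) (fun f _ => hwt0 f) (mem_filter.2 ⟨he, hi⟩)
      have := hpos i
      linarith) hsum
  exact ⟨π, hπ⟩

end Perm

end Pool.Agent.Helper56.HD
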