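import Pool.Agent.Helper56.HD.LLL

/-!
# Project HD (MP_950ff6_co): the local lemma for several independent random permutations
-/

set_option autoImplicit false

namespace Pool.Agent.Helper56.HD.Multi

open Finset Pool.Agent.Helper56.HD

variable {b m : ℕ}

/-- Families of `b` permutations. -/
abbrev Om (b m : ℕ) := Fin b → Equiv.Perm (Fin m)

/-- Changing the value of `π c` at `k` from `l` to another one. -/
theorem step (P : Om b m → Prop) (c : Fin b) (k l : Fin m) (S : Finset (Fin m))
    (h : ∀ π, P π → π c k = l → ∀ l' ∈ S, P (Function.update π c (Equiv.swap l l' * π c))) :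
    cnt (fun π => P π ∧ π c k = l) * (S.card : ℝ) ≤ cnt P := by
  unfold cnt
  rw [← Nat.cast_mul]
  have h0 : (S.card : ℕ) = (S : Set (Fin m)).ncard := (Set.ncard_coe_finset S).symm
  rw [h0, ← Set.ncard_prod]
  have : (({π | P π ∧ π c k = l} : Set (Om b m)) ×ˢ (S : Set (Fin m))).ncard ≤
      ({π | P π} : Set (Om b m)).ncard := by
    apply Set.ncard_le_ncard_of_injOn
      (fun x => Function.update x.1 c (Equiv.swap l x.2 * x.1 c))
    · intro x hx
      exact h x.1 hx.1.1 hx.1.2 x.2 (by simpa using hx.2)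
    · intro x hx y hy hxy
      have hc : Equiv.swap l x.2 * x.1 c = Equiv.swap l y.2 * y.1 c := by
        have := congrFun hxy c
        simpa using this
      have h1 : (Equiv.swap l x.2 * x.1 c) k = x.2 := by
        rw [Equiv.Perm.mul_apply, hx.1.2, Equiv.swap_apply_left]
      have h2 : (Equiv.swap l y.2 * y.1 c) k = y.2 := by
        rw [Equiv.Perm.mul_apply, hy.1.2, Equiv.swap_apply_left]
      have h3 : x.2 = y.2 := by
        rw [← h1, ← h2, hc]
      have h4 : x.1 c = y.1 c := by
        have h5 : Equiv.swap l x.2 * x.1 c = Equiv.swap l x.2 * y.1 c := by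
          have : Equiv.swap l y.2 * y.1 c = Equiv.swap l x.2 * y.1 c := by rw [h3]
          exact hc.trans this
        exact mul_left_cancel h5
      have h6 : x.1 = y.1 := by
        funext a
        by_cases ha : a = c
        · rw [ha]
          exact h4
        · have := congrFun hxy a
          simpa [Function.update_of_ne ha] using this
      exact Prod.ext h6 h3
  exact_mod_cast this

/-- A bag index with the values of all classes. -/
abbrev Tup (b m : ℕ) := Fin m × (Fin b → Fin m)

/-- Events: one or two prescribed bags. -/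
abbrev Ev (b m : ℕ) := Tup b m ⊕ (Tup b m × Tup b m)

/-- The bag `x.1` has the values `x.2`. -/
def Has (x : Tup b m) (π : Om b m) : Prop := ∀ c, π c x.1 = x.2 c

/-- The event happens. -/
def hap : Ev b m → Om b m → Prop
  | .inl x, π => Has x π
  | .inr x, π => Has x.1 π ∧ Has x.2 π

/-- The bag indices of an event. -/
def pos : Ev b m → Finset (Fin m)
  | .inl x => {x.1}
  | .inr x => {x.1.1, x.2.1}

/-- The values of a tuple. -/
def tval (x : Tup b m) : Finset (Fin b × Fin m) := univ.image fun c => (c, x.2 c)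

/-- The values of an event. -/
def val : Ev b m → Finset (Fin b × Fin m)
  | .inl x => tval x
  | .inr x => tval x.1 ∪ tval x.2

/-- Conflict. -/
def Cf (e f : Ev b m) : Prop := ¬ (Disjoint (pos e) (pos f) ∧ Disjoint (val e) (val f))

instance : DecidableRel (Cf (b := b) (m := m)) := fun e f => by unfold Cf; infer_instance

/-- Weights. -/
noncomputable def wt : Ev b m → ℝ
  | .inl _ => 1 / (m : ℝ) ^ b
  | .inr _ => 1 / ((m : ℝ) * (m - 1)) ^ b

theorem mem_tval (x : Tup b m) (c : Fin b) : (c, x.2 c) ∈ tval x :=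
  mem_image.2 ⟨c, mem_univ _, rfl⟩

/-- Avoidance is kept when the value `l` of class `c` at the bag `k` is changed. -/
theorem avoid_update (T : Finset (Ev b m)) (π : Om b m) (c : Fin b) (k l l' : Fin m)
    (hT : ∀ t ∈ T, k ∉ pos t ∧ (c, l) ∉ val t) (hπ : π c k = l) (h : Avoid hap T π) :
    Avoid hap T (Function.update π c (Equiv.swap l l' * π c)) := by
  have key : ∀ x : Tup b m, x.1 ≠ k → (c, l) ∉ tval x →
      Has x (Function.update π c (Equiv.swap l l' * π c)) → Has x π := by
    intro x hxk hxl hx a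
    have hxa := hx a
    by_cases ha : a = c
    · subst ha
      rw [Function.update_self, Equiv.Perm.mul_apply] at hxa
      have hne : x.2 a ≠ l := fun h => hxl (h ▸ mem_tval x a)
      by_cases h1 : π a x.1 = l
      · exact absurd ((π a).injective (h1.trans hπ.symm)) hxk
      · by_cases h2 : π a x.1 = l'
        · rw [h2, Equiv.swap_apply_right] at hxa
          exact absurd hxa.symm hne
        · rwa [Equiv.swap_apply_of_ne_of_ne h1 h2] at hxa
    · rwa [Function.update_of_ne ha] at hxa
  intro t ht hh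
  refine h t ht ?_
  have hkt := hT t ht
  cases t with
  | inl x =>
    simp only [pos, val, mem_singleton] at hkt
    exact key x (fun h => hkt.1 h.symm) hkt.2 hh
  | inr x =>
    simp only [pos, val, mem_insert, mem_singleton, not_or, mem_union] at hkt
    exact ⟨key _ (fun h => hkt.1.1 h.symm) hkt.2.1 hh.1,
      key _ (fun h => hkt.1.2 h.symm) hkt.2.2 hh.2⟩

/-- One prescribed bag. -/
theorem one_bag (P : Om b m → Prop) (x : Tup b m) (S : Finset (Fin b)) (N : ℕ)
    (Sl : Fin b → Finset (Fin m)) (hSl : ∀ c, (Sl c).card = N)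
    (h : ∀ π c, P π → π c x.1 = x.2 c → ∀ l' ∈ Sl c,
      P (Function.update π c (Equiv.swap (x.2 c) l' * π c))) :
    cnt (fun π => P π ∧ ∀ c ∈ S, π c x.1 = x.2 c) * (N : ℝ) ^ S.card ≤ cnt P := by
  classical
  induction S using Finset.induction_on with
  | empty =>
    rw [card_empty, pow_zero, mul_one]
    exact cnt_mono fun π hπ => hπ.1
  | insert a S ha ih =>
    have h1 := step (fun π => P π ∧ ∀ c ∈ S, π c x.1 = x.2 c) a x.1 (x.2 a) (Sl a)
      (fun π hπ hk l' hl' => by
        refine ⟨h π a hπ.1 hk l' hl', fun c hc => ?_⟩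
        have hca : c ≠ a := fun h => ha (h ▸ hc)
        rw [Function.update_of_ne hca]
        exact hπ.2 c hc)
    rw [hSl] at h1
    have h2 : cnt (fun π : Om b m => P π ∧ ∀ c ∈ insert a S, π c x.1 = x.2 c) =
        cnt (fun π : Om b m => (P π ∧ ∀ c ∈ S, π c x.1 = x.2 c) ∧ π a x.1 = x.2 a) := by
      congr 1
      funext π
      apply propext
      rw [forall_mem_insert]
      tauto
    rw [h2, card_insert_of_notMem ha, pow_succ]
    calc cnt (fun π : Om b m => (P π ∧ ∀ c ∈ S, π c x.1 = x.2 c) ∧ π a x.1 = x.2 a) *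
          ((N : ℝ) ^ S.card * N)
        = (cnt (fun π : Om b m => (P π ∧ ∀ c ∈ S, π c x.1 = x.2 c) ∧ π a x.1 = x.2 a) * N) *
          (N : ℝ) ^ S.card := by ring
      _ ≤ cnt (fun π : Om b m => P π ∧ ∀ c ∈ S, π c x.1 = x.2 c) * (N : ℝ) ^ S.card :=
          mul_le_mul_of_nonneg_right h1 (by positivity)
      _ ≤ cnt P := ih

theorem lop (e : Ev b m)
    (he : ∀ x, e = .inr x → x.1.1 ≠ x.2.1 ∧ ∀ c, x.1.2 c ≠ x.2.2 c)
    (T : Finset (Ev b m)) (hT : ∀ t ∈ T, ¬ Cf e t) :
    cnt (fun π => hap e π ∧ Avoid hap T π) ≤ wt e * cnt (Avoid hap T) := by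
  have first : ∀ x : Tup b m, (∀ t ∈ T, x.1 ∉ pos t ∧ ∀ c, (c, x.2 c) ∉ val t) →
      cnt (fun π => Avoid hap T π ∧ ∀ c ∈ univ, π c x.1 = x.2 c) * (m : ℝ) ^ b ≤
        cnt (Avoid hap T) := by
    intro x hx
    have h1 := one_bag (Avoid hap T) x univ m (fun _ => univ)
      (fun _ => by rw [card_univ, Fintype.card_fin])
      (fun π c hπ hk l' _ => avoid_update T π c x.1 (x.2 c) l'
        (fun t ht => ⟨(hx t ht).1, (hx t ht).2 c⟩) hk hπ)
    rwa [card_univ, Fintype.card_fin] at h1
  cases e with
  | inl x =>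
    have hm : (0 : ℝ) < m := by
      have : 0 < m := x.1.pos
      exact_mod_cast this
    have h1 := first x (fun t ht => by
      have := hT t ht
      unfold Cf at this
      rw [not_not] at this
      refine ⟨by simpa [pos] using this.1, fun c hc => ?_⟩
      exact (disjoint_left.1 this.2) (mem_tval x c) hc)
    have h2 : cnt (fun π => hap (.inl x) π ∧ Avoid hap T π) =
        cnt (fun π : Om b m => Avoid hap T π ∧ ∀ c ∈ univ, π c x.1 = x.2 c) := by
      congr 1
      funext π
      apply propext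
      simp only [mem_univ, true_implies]
      exact and_comm
    rw [h2, wt, one_div, ← div_eq_inv_mul, le_div_iff₀ (by positivity)]
    exact h1
  | inr x =>
    obtain ⟨hne1, hne2⟩ := he x rfl
    have hm2 : 2 ≤ m := by
      by_contra hcon
      have h1 := x.1.1.isLt
      have h2 := x.2.1.isLt
      apply hne1
      apply Fin.ext
      omega
    have hm : (0 : ℝ) < m := by
      have : 0 < m := by omega
      exact_mod_cast this
    have hm' : (0 : ℝ) < (m : ℝ) - 1 := by
      have : (2 : ℝ) ≤ m := by exact_mod_cast hm2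
      linarith
    have hT' : ∀ t ∈ T, (x.1.1 ∉ pos t ∧ ∀ c, (c, x.1.2 c) ∉ val t) ∧
        (x.2.1 ∉ pos t ∧ ∀ c, (c, x.2.2 c) ∉ val t) := by
      intro t ht
      have := hT t ht
      unfold Cf at this
      rw [not_not] at this
      simp only [pos, val, disjoint_insert_left, disjoint_singleton_left,
        disjoint_union_left] at this
      exact ⟨⟨this.1.1, fun c hc => (disjoint_left.1 this.2.1) (mem_tval x.1 c) hc⟩,
        ⟨this.1.2, fun c hc => (disjoint_left.1 this.2.2) (mem_tval x.2 c) hc⟩⟩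
    have h1 := first x.1 (fun t ht => (hT' t ht).1)
    have h2 := one_bag (fun π => Avoid hap T π ∧ ∀ c ∈ (univ : Finset (Fin b)),
        π c x.1.1 = x.1.2 c) x.2 univ (m - 1)
      (fun c => univ.erase (x.1.2 c))
      (fun c => by rw [card_erase_of_mem (mem_univ _), card_univ, Fintype.card_fin])
      (fun π c hπ hk l' hl' => by
        refine ⟨avoid_update T π c x.2.1 (x.2.2 c) l'
          (fun t ht => ⟨(hT' t ht).2.1, (hT' t ht).2.2 c⟩) hk hπ.1, fun a _ => ?_⟩
        by_cases hac : a = c
        · subst hac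
          rw [Function.update_self, Equiv.Perm.mul_apply, hπ.2 a (mem_univ _)]
          exact Equiv.swap_apply_of_ne_of_ne (hne2 a) (fun h => (mem_erase.1 hl').1 h.symm)
        · rw [Function.update_of_ne hac]
          exact hπ.2 a (mem_univ _))
    rw [card_univ, Fintype.card_fin, Nat.cast_sub (by omega), Nat.cast_one] at h2
    have h3 : cnt (fun π => hap (.inr x) π ∧ Avoid hap T π) =
        cnt (fun π : Om b m => (Avoid hap T π ∧ ∀ c ∈ (univ : Finset (Fin b)),
          π c x.1.1 = x.1.2 c) ∧ ∀ c ∈ univ, π c x.2.1 = x.2.2 c) := by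
      congr 1
      funext π
      apply propext
      simp only [mem_univ, true_implies]
      show (Has x.1 π ∧ Has x.2 π) ∧ Avoid hap T π ↔ _
      unfold Has
      tauto
    rw [h3, wt, one_div, ← div_eq_inv_mul, le_div_iff₀ (by positivity), mul_pow]
    set c1 := cnt (fun π : Om b m => (Avoid hap T π ∧ ∀ c ∈ (univ : Finset (Fin b)),
          π c x.1.1 = x.1.2 c) ∧ ∀ c ∈ univ, π c x.2.1 = x.2.2 c) with hc1
    calc c1 * ((m : ℝ) ^ b * ((m : ℝ) - 1) ^ b) = (c1 * ((m : ℝ) - 1) ^ b) * (m : ℝ) ^ b := by ring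
      _ ≤ cnt (fun π : Om b m => Avoid hap T π ∧ ∀ c ∈ (univ : Finset (Fin b)),
            π c x.1.1 = x.1.2 c) * (m : ℝ) ^ b :=
          mul_le_mul_of_nonneg_right h2 (by positivity)
      _ ≤ cnt (Avoid hap T) := h1

/-- The local lemma for `b` permutations. -/
theorem perm_lll (hb : 1 ≤ b) (J : Finset (Ev b m))
    (hJ : ∀ x, (Sum.inr x : Ev b m) ∈ J → x.1.1 ≠ x.2.1 ∧ ∀ c, x.1.2 c ≠ x.2.2 c)
    (hpos : ∀ i : Fin m, ∑ f ∈ J.filter (fun f => i ∈ pos f), wt f ≤ 1 / (16 * b))
    (hval : ∀ i : Fin b × Fin m, ∑ f ∈ J.filter (fun f => i ∈ val f), wt f ≤ 1 / (16 * b)) :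
    ∃ π : Om b m, ∀ f ∈ J, ¬ hap f π := by
  classical
  have hbR : (1 : ℝ) ≤ b := by exact_mod_cast hb
  have hb0 : (0 : ℝ) < b := by linarith
  have hwt0 : ∀ f : Ev b m, 0 ≤ wt f := by
    intro f
    cases f with
    | inl x =>
      show (0 : ℝ) ≤ 1 / (m : ℝ) ^ b
      positivity
    | inr x =>
      show (0 : ℝ) ≤ 1 / ((m : ℝ) * (m - 1)) ^ b
      have : 1 ≤ m := by
        have := x.1.1.isLt
        omega
      have h1 : (0 : ℝ) ≤ (m : ℝ) - 1 := by
        have : (1 : ℝ) ≤ m := by exact_mod_cast this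
        linarith
      positivity
  have hpne : ∀ f : Ev b m, ∃ i, i ∈ pos f := by
    intro f
    cases f with
    | inl x => exact ⟨x.1, by simp [pos]⟩
    | inr x => exact ⟨x.1.1, by simp [pos]⟩
  have hcp : ∀ f : Ev b m, (pos f).card ≤ 2 := by
    intro f
    cases f with
    | inl x => simp [pos]
    | inr x => exact card_le_two
  have htv : ∀ x : Tup b m, (tval x).card ≤ b := by
    intro x
    refine card_image_le.trans ?_
    rw [card_univ, Fintype.card_fin]
  have hcv : ∀ f : Ev b m, (val f).card ≤ 2 * b := by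
    intro f
    cases f with
    | inl x =>
      have := htv x
      show (tval x).card ≤ 2 * b
      omega
    | inr x =>
      have h1 := htv x.1
      have h2 := htv x.2
      have h3 := card_union_le (tval x.1) (tval x.2)
      show (tval x.1 ∪ tval x.2).card ≤ 2 * b
      omega
  have hb1 : ∀ {β : Type} [DecidableEq β] (S : Finset β) (g : β → Finset (Ev b m)),
      (∀ i, ∑ f ∈ g i, wt f ≤ 1 / (16 * b)) →
      ∑ f ∈ S.biUnion g, wt f ≤ S.card * (1 / (16 * (b : ℝ))) := by
    intro β _ S g hg
    calc ∑ f ∈ S.biUnion g, wt f ≤ ∑ i ∈ S, ∑ f ∈ g i, wt f := by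
          induction S using Finset.induction_on with
          | empty => simp
          | insert a S ha ih =>
            rw [biUnion_insert, sum_insert ha]
            have h1 := sum_union_inter (s₁ := g a) (s₂ := S.biUnion g) (f := wt)
            have h2 := sum_nonneg (s := g a ∩ S.biUnion g) fun f _ => hwt0 f
            linarith
      _ ≤ ∑ _i ∈ S, (1 / (16 * (b : ℝ))) := sum_le_sum fun i _ => hg i
      _ = S.card * (1 / (16 * (b : ℝ))) := by rw [sum_const, nsmul_eq_mul]
  have hsum : ∀ e ∈ J, ∑ f ∈ J.filter (fun f => Cf e f), wt f ≤ 1 / 4 := by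
    intro e _
    have hsub : J.filter (fun f => Cf e f) ⊆
        ((pos e).biUnion fun i => J.filter (fun f => i ∈ pos f)) ∪
        ((val e).biUnion fun i => J.filter (fun f => i ∈ val f)) := by
      intro f hf
      rw [mem_filter] at hf
      rw [mem_union, mem_biUnion, mem_biUnion]
      have h := hf.2
      unfold Cf at h
      rw [not_and_or, not_disjoint_iff, not_disjoint_iff] at h
      rcases h with ⟨i, h1, h2⟩ | ⟨i, h1, h2⟩
      · exact Or.inl ⟨i, h1, mem_filter.2 ⟨hf.1, h2⟩⟩
      · exact Or.inr ⟨i, h1, mem_filter.2 ⟨hf.1, h2⟩⟩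
    have e1 : ((pos e).card : ℝ) ≤ 2 := by exact_mod_cast hcp e
    have e2 : ((val e).card : ℝ) ≤ 2 * b := by exact_mod_cast hcv e
    have e3 : (0 : ℝ) ≤ 1 / (16 * (b : ℝ)) := by positivity
    calc ∑ f ∈ J.filter (fun f => Cf e f), wt f
        ≤ ∑ f ∈ ((pos e).biUnion fun i => J.filter (fun f => i ∈ pos f)) ∪
          ((val e).biUnion fun i => J.filter (fun f => i ∈ val f)), wt f :=
          sum_le_sum_of_subset_of_nonneg hsub fun f _ _ => hwt0 f
      _ ≤ ∑ f ∈ ((pos e).biUnion fun i => J.filter (fun f => i ∈ pos f)), wt f +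
          ∑ f ∈ ((val e).biUnion fun i => J.filter (fun f => i ∈ val f)), wt f := by
          rw [← sum_union_inter]
          have := sum_nonneg (s := ((pos e).biUnion fun i => J.filter (fun f => i ∈ pos f)) ∩
            ((val e).biUnion fun i => J.filter (fun f => i ∈ val f))) fun f _ => hwt0 f
          linarith
      _ ≤ (pos e).card * (1 / (16 * (b : ℝ))) + (val e).card * (1 / (16 * (b : ℝ))) :=
          add_le_add (hb1 _ _ hpos) (hb1 _ _ hval)
      _ ≤ 2 * (1 / (16 * (b : ℝ))) + (2 * b) * (1 / (16 * (b : ℝ))) :=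
          add_le_add (mul_le_mul_of_nonneg_right e1 e3) (mul_le_mul_of_nonneg_right e2 e3)
      _ ≤ 1 / 4 := by
          have e4 : (2 * (b : ℝ)) * (1 / (16 * (b : ℝ))) = 1 / 8 := by
            field_simp
            norm_num
          have e5 : 2 * (1 / (16 * (b : ℝ))) ≤ 1 / 8 := by
            rw [mul_one_div, div_le_div_iff₀ (by positivity) (by norm_num)]
            linarith
          linarith
  obtain ⟨π, hπ⟩ := lll J (hap (b := b) (m := m)) wt Cf (fun i _ => hwt0 i)
    (fun e he T _ hcf => lop e (fun x hx => hJ x (hx ▸ he)) T hcf)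
    (fun e he => by
      obtain ⟨i, hi⟩ := hpne e
      have h1 : wt e ≤ ∑ f ∈ J.filter (fun f => i ∈ pos f), wt f :=
        single_le_sum (f := fun f => wt f) (fun f _ => hwt0 f) (mem_filter.2 ⟨he, hi⟩)
      have h2 := hpos i
      have h3 : 1 / (16 * (b : ℝ)) ≤ 1 / 4 := by
        rw [div_le_div_iff₀ (by positivity) (by norm_num)]
        linarith
      linarith) hsum
  exact ⟨π, hπ⟩

end Pool.Agent.Helper56.HD.Multi
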