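import Pool.Agent.Helper56.HD.LLL

/-!
# Project HD (MP_950ff6_co): pairing two sets of vertices
-/

set_option autoImplicit false

namespace Pool.Agent.Helper56.HD

open Finset

variable {V : Type} [Fintype V] [DecidableEq V]

/-- The number of common neighbours. -/
def codeg (H : SimpleGraph V) [DecidableRel H.Adj] (u v : V) : ℕ :=
  (univ.filter fun w => H.Adj u w ∧ H.Adj v w).card

theorem codeg_comm (H : SimpleGraph V) [DecidableRel H.Adj] (u v : V) :
    codeg H u v = codeg H v u := by
  unfold codeg
  congr 1
  ext w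
  simp only [mem_filter, mem_univ, true_and]
  exact and_comm

theorem sum_codeg_le (H : SimpleGraph V) [DecidableRel H.Adj] (D m : ℕ) (q : Fin m → V)
    (hq : Function.Injective q) (hD : ∀ v, (univ.filter fun w => H.Adj v w).card ≤ D) (u : V) :
    ∑ j, codeg H u (q j) ≤ D * D := by
  have h1 : ∑ j, codeg H u (q j) = ∑ w ∈ univ.filter (fun w => H.Adj u w),
      (univ.filter fun j => H.Adj (q j) w).card := by
    have h2 : ∀ j, codeg H u (q j) =
        ∑ w ∈ univ.filter (fun w => H.Adj u w), if H.Adj (q j) w then 1 else 0 := by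
      intro j
      rw [← sum_filter, filter_filter, sum_const, smul_eq_mul, mul_one]
      rfl
    simp_rw [h2]
    rw [sum_comm]
    refine sum_congr rfl fun w _ => ?_
    rw [← sum_filter, sum_const, smul_eq_mul, mul_one]
  rw [h1]
  calc ∑ w ∈ univ.filter (fun w => H.Adj u w), (univ.filter fun j => H.Adj (q j) w).card
      ≤ ∑ w ∈ univ.filter (fun w => H.Adj u w), D := by
        refine sum_le_sum fun w _ => ?_
        refine le_trans ?_ (hD w)
        apply card_le_card_of_injOn q
        · intro j hj
          have := (mem_filter.1 (mem_coe.1 hj)).2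
          exact mem_coe.2 (mem_filter.2 ⟨mem_univ _, this.symm⟩)
        · intro j _ j' _ h
          exact hq h
    _ = (univ.filter fun w => H.Adj u w).card * D := by rw [sum_const, smul_eq_mul]
    _ ≤ D * D := Nat.mul_le_mul_right _ (hD u)

/-- Few `j` have many common neighbours with `u`. -/
theorem card_codeg_le (H : SimpleGraph V) [DecidableRel H.Adj] (D m : ℕ) (q : Fin m → V)
    (hq : Function.Injective q) (hD : ∀ v, (univ.filter fun w => H.Adj v w).card ≤ D) (u : V) :
    256 * (univ.filter fun j => 256 * (D * D) < codeg H u (q j) * m).card ≤ m := by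
  by_cases hD0 : D = 0
  · have : (univ.filter fun j => 256 * (D * D) < codeg H u (q j) * m) = ∅ := by
      rw [filter_eq_empty_iff]
      intro j _ h
      have h1 : codeg H u (q j) ≤ (univ.filter fun w => H.Adj u w).card := by
        apply card_le_card
        intro w hw
        rw [mem_filter] at hw ⊢
        exact ⟨hw.1, hw.2.1⟩
      have h2 := hD u
      have h3 : codeg H u (q j) = 0 := by omega
      rw [h3] at h
      omega
    rw [this]
    simp
  · have hDpos : 0 < D * D := Nat.mul_pos (Nat.pos_of_ne_zero hD0) (Nat.pos_of_ne_zero hD0)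
    have h1 : (univ.filter fun j => 256 * (D * D) < codeg H u (q j) * m).card * (256 * (D * D)) ≤
        (D * D) * m := by
      calc (univ.filter fun j => 256 * (D * D) < codeg H u (q j) * m).card * (256 * (D * D))
          = ∑ _j ∈ univ.filter (fun j => 256 * (D * D) < codeg H u (q j) * m),
            (256 * (D * D)) := by rw [sum_const, smul_eq_mul]
        _ ≤ ∑ j ∈ univ.filter (fun j => 256 * (D * D) < codeg H u (q j) * m),
            codeg H u (q j) * m := sum_le_sum fun j hj => (mem_filter.1 hj).2.le
        _ ≤ ∑ j, codeg H u (q j) * m :=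
            sum_le_sum_of_subset_of_nonneg (filter_subset _ _) fun _ _ _ => Nat.zero_le _
        _ = (∑ j, codeg H u (q j)) * m := by rw [sum_mul]
        _ ≤ (D * D) * m := Nat.mul_le_mul_right _ (sum_codeg_le H D m q hq hD u)
    have h2 : (D * D) * (256 * (univ.filter fun j => 256 * (D * D) < codeg H u (q j) * m).card) ≤
        (D * D) * m := by
      calc _ = (univ.filter fun j => 256 * (D * D) < codeg H u (q j) * m).card *
            (256 * (D * D)) := by ring
        _ ≤ _ := h1
    exact Nat.le_of_mul_le_mul_left h2 hDpos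

/-- Counting in a symmetric set of quadruples with bounded fibres. -/
theorem quad_count {m : ℕ} (Q : Finset ((Fin m × Fin m) × (Fin m × Fin m))) (K : ℕ)
    (hs : ∀ x ∈ Q, (x.2, x.1) ∈ Q)
    (hf : ∀ a : Fin m × Fin m, (Q.filter fun x => x.1 = a).card * m ^ 2 ≤ K) (i : Fin m) :
    (Q.filter fun x => i = x.1.1 ∨ i = x.2.1).card * m ≤ 2 * K ∧
      (Q.filter fun x => i = x.1.2 ∨ i = x.2.2).card * m ≤ 2 * K := by
  have hm : 0 < m := i.pos
  have one : ∀ g : Fin m × Fin m → Fin m, ∀ h : Fin m → Fin m × Fin m,
      (∀ a : Fin m × Fin m, g a = i → ∃ j, a = h j) →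
      (Q.filter fun x => i = g x.1 ∨ i = g x.2).card * m ≤ 2 * K := by
    intro g h hgh
    have h1 : (Q.filter fun x => i = g x.1).card * m ≤ K := by
      have h2 : (Q.filter fun x => i = g x.1) ⊆
          (univ : Finset (Fin m)).biUnion fun j => Q.filter fun x => x.1 = h j := by
        intro x hx
        rw [mem_filter] at hx
        obtain ⟨j, hj⟩ := hgh x.1 hx.2.symm
        rw [mem_biUnion]
        exact ⟨j, mem_univ _, mem_filter.2 ⟨hx.1, hj⟩⟩
      have h3 : (Q.filter fun x => i = g x.1).card * m ^ 2 ≤ m * K := by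
        calc (Q.filter fun x => i = g x.1).card * m ^ 2
            ≤ (∑ j : Fin m, (Q.filter fun x => x.1 = h j).card) * m ^ 2 :=
              Nat.mul_le_mul_right _ ((card_le_card h2).trans card_biUnion_le)
          _ = ∑ j : Fin m, (Q.filter fun x => x.1 = h j).card * m ^ 2 := by rw [sum_mul]
          _ ≤ ∑ _j : Fin m, K := sum_le_sum fun j _ => hf _
          _ = m * K := by rw [sum_const, card_univ, Fintype.card_fin, smul_eq_mul]
      have h4 : m * ((Q.filter fun x => i = g x.1).card * m) ≤ m * K := by
        calc _ = (Q.filter fun x => i = g x.1).card * m ^ 2 := by ring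
          _ ≤ _ := h3
      exact Nat.le_of_mul_le_mul_left h4 hm
    have h5 : (Q.filter fun x => i = g x.2).card ≤ (Q.filter fun x => i = g x.1).card := by
      apply card_le_card_of_injOn (fun x => (x.2, x.1))
      · intro x hx
        rw [mem_coe, mem_filter] at hx ⊢
        exact ⟨hs x hx.1, hx.2⟩
      · intro x _ y _ hxy
        simp only [Prod.mk.injEq] at hxy
        exact Prod.ext hxy.2 hxy.1
    have h6 : (Q.filter fun x => i = g x.1 ∨ i = g x.2).card ≤
        (Q.filter fun x => i = g x.1).card + (Q.filter fun x => i = g x.2).card := by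
      rw [filter_or]
      exact card_union_le _ _
    calc (Q.filter fun x => i = g x.1 ∨ i = g x.2).card * m
        ≤ ((Q.filter fun x => i = g x.1).card + (Q.filter fun x => i = g x.1).card) * m :=
          Nat.mul_le_mul_right _ (h6.trans (Nat.add_le_add_left h5 _))
      _ = 2 * ((Q.filter fun x => i = g x.1).card * m) := by ring
      _ ≤ 2 * K := Nat.mul_le_mul_left _ h1
  exact ⟨one Prod.fst (fun j => (i, j)) fun a ha => ⟨a.2, Prod.ext ha rfl⟩,
    one Prod.snd (fun j => (j, i)) fun a ha => ⟨a.1, Prod.ext rfl ha⟩⟩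

/-- Two sets `p`, `q` of `m` vertices can be paired so that no pair is forbidden or an edge of `H` and no
two pairs are completely joined in `H`. -/
theorem pair_lemma (H : SimpleGraph V) [DecidableRel H.Adj] (m D : ℕ) (p q : Fin m → V)
    (hp : Function.Injective p) (hq : Function.Injective q) (F : V → V → Prop) [DecidableRel F]
    (hD : ∀ v, (univ.filter fun w => H.Adj v w).card ≤ D)
    (hF1 : ∀ i, 128 * (univ.filter fun j => F (p i) (q j)).card ≤ m)
    (hF2 : ∀ j, 128 * (univ.filter fun i => F (p i) (q j)).card ≤ m)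
    (hm : 2 ^ 24 * D ^ 4 ≤ m ^ 3) :
    ∃ π : Equiv.Perm (Fin m), (∀ i, ¬ F (p i) (q (π i)) ∧ ¬ H.Adj (p i) (q (π i))) ∧
      ∀ i i', i ≠ i' → ¬ (H.Adj (p i) (p i') ∧ H.Adj (p i) (q (π i')) ∧
        H.Adj (q (π i)) (p i') ∧ H.Adj (q (π i)) (q (π i'))) := by
  classical
  -- the forbidden assignments
  set B : Fin m → Fin m → Prop := fun i j =>
    F (p i) (q j) ∨ H.Adj (p i) (q j) ∨ 256 * (D * D) < codeg H (p i) (q j) * m with hB
  set J1 : Finset (Ev m) := (univ.filter fun x : Fin m × Fin m => B x.1 x.2).map
    ⟨Sum.inl, Sum.inl_injective⟩ with hJ1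
  set J2 : Finset (Ev m) := (univ.filter fun x : (Fin m × Fin m) × (Fin m × Fin m) =>
    x.1.1 ≠ x.2.1 ∧ x.1.2 ≠ x.2.2 ∧ ¬ B x.1.1 x.1.2 ∧ ¬ B x.2.1 x.2.2 ∧
      H.Adj (p x.1.1) (p x.2.1) ∧ H.Adj (p x.1.1) (q x.2.2) ∧
        H.Adj (q x.1.2) (p x.2.1) ∧ H.Adj (q x.1.2) (q x.2.2)).map
    ⟨Sum.inr, Sum.inr_injective⟩ with hJ2
  have main : ∃ π : Equiv.Perm (Fin m), ∀ f ∈ J1 ∪ J2, ¬ hap f π := by
    -- the numbers of forbidden assignments
    have hDm : 256 * D ≤ m := by
      by_contra hcon
      rw [not_le] at hcon
      have h1 : m ^ 3 < (256 * D) ^ 3 := Nat.pow_lt_pow_left hcon (by norm_num)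
      have hD1 : 1 ≤ D := by
        rcases Nat.eq_zero_or_pos D with h | h
        · subst h
          omega
        · exact h
      have h2 : (256 * D) ^ 3 ≤ 2 ^ 24 * D ^ 4 := by
        have h3 : D ^ 3 ≤ D ^ 4 := Nat.pow_le_pow_right hD1 (by norm_num)
        calc (256 * D) ^ 3 = 2 ^ 24 * D ^ 3 := by ring
          _ ≤ 2 ^ 24 * D ^ 4 := Nat.mul_le_mul_left _ h3
      omega
    have hrow : ∀ i, 64 * (univ.filter fun j => B i j).card ≤ m := by
      intro i
      have h1 : (univ.filter fun j => B i j).card ≤ (univ.filter fun j => F (p i) (q j)).card +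
          ((univ.filter fun j => H.Adj (p i) (q j)).card +
          (univ.filter fun j => 256 * (D * D) < codeg H (p i) (q j) * m).card) := by
        refine (card_le_card (t := (univ.filter fun j => F (p i) (q j)) ∪
          ((univ.filter fun j => H.Adj (p i) (q j)) ∪
          (univ.filter fun j => 256 * (D * D) < codeg H (p i) (q j) * m))) ?_).trans
          ((card_union_le _ _).trans (Nat.add_le_add_left (card_union_le _ _) _))
        intro j hj
        rcases (mem_filter.1 hj).2 with h | h | h
        · exact mem_union_left _ (mem_filter.2 ⟨mem_univ _, h⟩)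
        · exact mem_union_right _ (mem_union_left _ (mem_filter.2 ⟨mem_univ _, h⟩))
        · exact mem_union_right _ (mem_union_right _ (mem_filter.2 ⟨mem_univ _, h⟩))
      have h2 : (univ.filter fun j => H.Adj (p i) (q j)).card ≤ D := by
        refine le_trans ?_ (hD (p i))
        apply card_le_card_of_injOn q
        · intro j hj
          exact mem_coe.2 (mem_filter.2 ⟨mem_univ _, (mem_filter.1 (mem_coe.1 hj)).2⟩)
        · intro j _ j' _ h
          exact hq h
      have h3 := card_codeg_le H D m q hq hD (p i)
      have h4 := hF1 i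
      omega
    have hcol : ∀ j, 64 * (univ.filter fun i => B i j).card ≤ m := by
      intro j
      have h1 : (univ.filter fun i => B i j).card ≤ (univ.filter fun i => F (p i) (q j)).card +
          ((univ.filter fun i => H.Adj (p i) (q j)).card +
          (univ.filter fun i => 256 * (D * D) < codeg H (p i) (q j) * m).card) := by
        refine (card_le_card (t := (univ.filter fun i => F (p i) (q j)) ∪
          ((univ.filter fun i => H.Adj (p i) (q j)) ∪
          (univ.filter fun i => 256 * (D * D) < codeg H (p i) (q j) * m))) ?_).trans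
          ((card_union_le _ _).trans (Nat.add_le_add_left (card_union_le _ _) _))
        intro i hi
        rcases (mem_filter.1 hi).2 with h | h | h
        · exact mem_union_left _ (mem_filter.2 ⟨mem_univ _, h⟩)
        · exact mem_union_right _ (mem_union_left _ (mem_filter.2 ⟨mem_univ _, h⟩))
        · exact mem_union_right _ (mem_union_right _ (mem_filter.2 ⟨mem_univ _, h⟩))
      have h2 : (univ.filter fun i => H.Adj (p i) (q j)).card ≤ D := by
        refine le_trans ?_ (hD (q j))
        apply card_le_card_of_injOn p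
        · intro i hi
          exact mem_coe.2 (mem_filter.2 ⟨mem_univ _, (mem_filter.1 (mem_coe.1 hi)).2.symm⟩)
        · intro i _ i' _ h
          exact hp h
      have h3 := card_codeg_le H D m p hp hD (q j)
      simp_rw [codeg_comm H (q j)] at h3
      have h4 := hF2 j
      omega
    -- the quadruples
    set Q : Finset ((Fin m × Fin m) × (Fin m × Fin m)) :=
      univ.filter fun x : (Fin m × Fin m) × (Fin m × Fin m) =>
        x.1.1 ≠ x.2.1 ∧ x.1.2 ≠ x.2.2 ∧ ¬ B x.1.1 x.1.2 ∧ ¬ B x.2.1 x.2.2 ∧
          H.Adj (p x.1.1) (p x.2.1) ∧ H.Adj (p x.1.1) (q x.2.2) ∧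
            H.Adj (q x.1.2) (p x.2.1) ∧ H.Adj (q x.1.2) (q x.2.2) with hQ
    have hQs : ∀ x ∈ Q, (x.2, x.1) ∈ Q := by
      intro x hx
      rw [hQ, mem_filter] at hx ⊢
      obtain ⟨_, h1, h2, h3, h4, h5, h6, h7, h8⟩ := hx
      exact ⟨mem_univ _, h1.symm, h2.symm, h4, h3, h5.symm, h7.symm, h6.symm, h8.symm⟩
    have hQf : ∀ a : Fin m × Fin m, (Q.filter fun x => x.1 = a).card * m ^ 2 ≤
        (256 * (D * D)) ^ 2 := by
      intro a
      by_cases hBa : B a.1 a.2
      · have : (Q.filter fun x => x.1 = a) = ∅ := by
          rw [filter_eq_empty_iff]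
          intro x hx hxa
          rw [hQ, mem_filter] at hx
          rw [← hxa] at hBa
          exact hx.2.2.2.1 hBa
        rw [this]
        simp
      · have h1 : codeg H (p a.1) (q a.2) * m ≤ 256 * (D * D) := by
          by_contra hcon
          exact hBa (Or.inr (Or.inr (not_le.1 hcon)))
        have h2 : (Q.filter fun x => x.1 = a).card ≤
            codeg H (p a.1) (q a.2) * codeg H (p a.1) (q a.2) := by
          unfold codeg
          rw [← card_product]
          apply card_le_card_of_injOn (fun x => (p x.2.1, q x.2.2))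
          · intro x hx
            have hx' := mem_filter.1 (mem_coe.1 hx)
            have hx2 := (mem_filter.1 hx'.1).2
            rw [hx'.2] at hx2
            obtain ⟨_, _, _, _, h5, h6, h7, h8⟩ := hx2
            exact mem_coe.2 (mem_product.2 ⟨mem_filter.2 ⟨mem_univ _, h5, h7⟩,
              mem_filter.2 ⟨mem_univ _, h6, h8⟩⟩)
          · intro x hx y hy hxy
            have hx' := (mem_filter.1 (mem_coe.1 hx)).2
            have hy' := (mem_filter.1 (mem_coe.1 hy)).2
            simp only [Prod.mk.injEq] at hxy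
            exact Prod.ext (hx'.trans hy'.symm) (Prod.ext (hp hxy.1) (hq hxy.2))
        calc (Q.filter fun x => x.1 = a).card * m ^ 2
            ≤ (codeg H (p a.1) (q a.2) * codeg H (p a.1) (q a.2)) * m ^ 2 :=
              Nat.mul_le_mul_right _ h2
          _ = (codeg H (p a.1) (q a.2) * m) ^ 2 := by ring
          _ ≤ (256 * (D * D)) ^ 2 := Nat.pow_le_pow_left h1 2
    have hQc := quad_count Q _ hQs hQf
    -- the general bound of the weights
    have bound : ∀ (N1 N2 : ℕ), 64 * N1 ≤ m → N2 * m ≤ 2 * (256 * (D * D)) ^ 2 →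
        (2 ≤ m ∨ N2 = 0) → 1 ≤ m →
        (N1 : ℝ) * (1 / m) + (N2 : ℝ) * (1 / (m * (m - 1))) ≤ 1 / 16 := by
      intro N1 N2 h1 h2 h3 hm1
      have hmR : (1 : ℝ) ≤ m := by exact_mod_cast hm1
      have hm0 : (0 : ℝ) < m := by linarith
      have e1 : (N1 : ℝ) * (1 / m) ≤ 1 / 64 := by
        rw [mul_one_div, div_le_iff₀ hm0]
        have : (64 : ℝ) * N1 ≤ m := by exact_mod_cast h1
        linarith
      have e2 : (N2 : ℝ) * (1 / (m * (m - 1))) ≤ 1 / 64 := by
        rcases h3 with h3 | h3
        · have hm2 : (2 : ℝ) ≤ m := by exact_mod_cast h3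
          have hm' : (0 : ℝ) < (m : ℝ) - 1 := by linarith
          rw [mul_one_div, div_le_iff₀ (by positivity)]
          have h4 : (N2 : ℝ) * m ≤ 2 * (256 * ((D : ℝ) * D)) ^ 2 := by exact_mod_cast h2
          have h5 : (2 : ℝ) ^ 24 * (D : ℝ) ^ 4 ≤ (m : ℝ) ^ 3 := by exact_mod_cast hm
          have h6 : (N2 : ℝ) * m * 128 ≤ (m : ℝ) ^ 3 := by
            calc (N2 : ℝ) * m * 128 ≤ 2 * (256 * ((D : ℝ) * D)) ^ 2 * 128 := by linarith
              _ = (2 : ℝ) ^ 24 * (D : ℝ) ^ 4 := by ring
              _ ≤ _ := h5
          have h7 : (N2 : ℝ) * 128 ≤ (m : ℝ) ^ 2 := by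
            have : m * ((N2 : ℝ) * 128) ≤ m * (m : ℝ) ^ 2 := by
              calc m * ((N2 : ℝ) * 128) = (N2 : ℝ) * m * 128 := by ring
                _ ≤ (m : ℝ) ^ 3 := h6
                _ = m * (m : ℝ) ^ 2 := by ring
            exact le_of_mul_le_mul_left this hm0
          nlinarith
        · rw [h3]
          norm_num
      linarith
    have hm1 : ∀ i : Fin m, 1 ≤ m := fun i => i.pos
    -- sums over one position or value
    have split : ∀ (P : Ev m → Prop) [DecidablePred P] (N1 N2 : ℕ),
        ((univ.filter fun x : Fin m × Fin m => B x.1 x.2).filter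
          fun x => P (.inl x)).card ≤ N1 →
        (Q.filter fun x => P (.inr x)).card ≤ N2 →
        0 < m →
        ∑ f ∈ (J1 ∪ J2).filter P, wt f ≤
          (N1 : ℝ) * (1 / m) + (N2 : ℝ) * (1 / (m * (m - 1))) := by
      intro P _ N1 N2 h1 h2 hm0
      have hmR : (1 : ℝ) ≤ m := by exact_mod_cast hm0
      have hdis : Disjoint (J1.filter P) (J2.filter P) := by
        rw [disjoint_left]
        intro f hf hf'
        rw [mem_filter, hJ1, mem_map] at hf
        rw [mem_filter, hJ2, mem_map] at hf'
        obtain ⟨⟨x, _, hx⟩, _⟩ := hf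
        obtain ⟨⟨y, _, hy⟩, _⟩ := hf'
        rw [← hx] at hy
        exact absurd hy (by simp)
      rw [filter_union, sum_union hdis, hJ1, hJ2, filter_map, filter_map, sum_map, sum_map]
      refine add_le_add ?_ ?_
      · calc _ = ((((univ.filter fun x : Fin m × Fin m => B x.1 x.2).filter
            fun x => P (.inl x)).card : ℕ) : ℝ) * (1 / m) := by
              rw [← nsmul_eq_mul, ← sum_const]
              rfl
          _ ≤ (N1 : ℝ) * (1 / m) := by
              apply mul_le_mul_of_nonneg_right _ (by positivity)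
              exact_mod_cast h1
      · calc _ = (((Q.filter fun x => P (.inr x)).card : ℕ) : ℝ) * (1 / (m * (m - 1))) := by
              rw [← nsmul_eq_mul, ← sum_const]
              rfl
          _ ≤ (N2 : ℝ) * (1 / (m * (m - 1))) := by
              apply mul_le_mul_of_nonneg_right
              · exact_mod_cast h2
              · have : (0 : ℝ) ≤ (m : ℝ) - 1 := by linarith
                positivity
    have hQ2 : ∀ (P : (Fin m × Fin m) × (Fin m × Fin m) → Prop) [DecidablePred P],
        2 ≤ m ∨ (Q.filter P).card = 0 := by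
      intro P _
      rcases Nat.lt_or_ge m 2 with h | h
      · right
        rw [card_eq_zero, filter_eq_empty_iff]
        intro x hx _
        rw [hQ, mem_filter] at hx
        apply hx.2.1
        apply Fin.ext
        have h1 := x.1.1.isLt
        have h2 := x.2.1.isLt
        omega
      · exact Or.inl h
    apply perm_lll
    · intro x hx
      rcases mem_union.1 hx with h | h
      · rw [hJ1, mem_map] at h
        obtain ⟨y, _, hy⟩ := h
        exact absurd hy (by simp)
      · rw [hJ2, mem_map] at h
        obtain ⟨y, hy, hyx⟩ := h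
        have : y = x := by simpa using hyx
        rw [this] at hy
        have := (mem_filter.1 hy).2
        exact ⟨this.1, this.2.1⟩
    · intro i
      refine (split (fun f => i ∈ pos f) _ _ ?_ le_rfl i.pos).trans
        (bound (univ.filter fun j => B i j).card
          (Q.filter fun x => i ∈ pos (.inr x)).card (hrow i) ?_ (hQ2 _) i.pos)
      · apply card_le_card_of_injOn Prod.snd
        · intro x hx
          have h1 := mem_filter.1 (mem_coe.1 hx)
          have h2 := (mem_filter.1 h1.1).2
          have h3 : i = x.1 := by simpa [pos] using h1.2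
          rw [← h3] at h2
          exact mem_coe.2 (mem_filter.2 ⟨mem_univ _, h2⟩)
        · intro x hx y hy hxy
          have h1 := (mem_filter.1 (mem_coe.1 hx)).2
          have h2 := (mem_filter.1 (mem_coe.1 hy)).2
          have h3 : i = x.1 := by simpa [pos] using h1
          have h4 : i = y.1 := by simpa [pos] using h2
          exact Prod.ext (h3.symm.trans h4) hxy
      · have h1 := (hQc i).1
        have h2 : (Q.filter fun x => i ∈ pos (.inr x)) =
            Q.filter fun x => i = x.1.1 ∨ i = x.2.1 := by
          apply filter_congr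
          intro x _
          simp [pos]
        rw [h2]
        exact h1
    · intro i
      refine (split (fun f => i ∈ val f) _ _ ?_ le_rfl i.pos).trans
        (bound (univ.filter fun j => B j i).card
          (Q.filter fun x => i ∈ val (.inr x)).card (hcol i) ?_ (hQ2 _) i.pos)
      · apply card_le_card_of_injOn Prod.fst
        · intro x hx
          have h1 := mem_filter.1 (mem_coe.1 hx)
          have h2 := (mem_filter.1 h1.1).2
          have h3 : i = x.2 := by simpa [val] using h1.2
          rw [← h3] at h2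
          exact mem_coe.2 (mem_filter.2 ⟨mem_univ _, h2⟩)
        · intro x hx y hy hxy
          have h1 := (mem_filter.1 (mem_coe.1 hx)).2
          have h2 := (mem_filter.1 (mem_coe.1 hy)).2
          have h3 : i = x.2 := by simpa [val] using h1
          have h4 : i = y.2 := by simpa [val] using h2
          exact Prod.ext hxy (h3.symm.trans h4)
      · have h1 := (hQc i).2
        have h2 : (Q.filter fun x => i ∈ val (.inr x)) =
            Q.filter fun x => i = x.1.2 ∨ i = x.2.2 := by
          apply filter_congr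
          intro x _
          simp [val]
        rw [h2]
        exact h1
  obtain ⟨π, hπ⟩ := main
  have hB' : ∀ i, ¬ B i (π i) := by
    intro i hi
    refine hπ (.inl (i, π i)) (mem_union_left _ ?_) rfl
    rw [hJ1, mem_map]
    exact ⟨(i, π i), mem_filter.2 ⟨mem_univ _, hi⟩, rfl⟩
  refine ⟨π, fun i => ⟨fun h => hB' i (Or.inl h), fun h => hB' i (Or.inr (Or.inl h))⟩, ?_⟩
  intro i i' hne hh
  refine hπ (.inr ((i, π i), (i', π i'))) (mem_union_right _ ?_) ⟨rfl, rfl⟩
  rw [hJ2, mem_map]
  exact ⟨((i, π i), (i', π i')), mem_filter.2 ⟨mem_univ _, hne, fun h => hne (π.injective h),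
    hB' i, hB' i', hh⟩, rfl⟩

end Pool.Agent.Helper56.HD
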